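import Pool.Agent.Lib.P9f173dR.Defs

/-!
Attaching the cells labelled by the translates of `T₀`.
-/

namespace Pool.Agent.Lib.P9f173dR

open Pool.Agent.Lib.P9f173d

section translate

variable {B G ι : Type*} [Group G] [MulAction G B] [Fintype ι]

/-- Exactness below `S` gives exactness below its translates. -/
theorem exP_imT (m : ι → ι → MonoidAlgebra ℂ G) (T : ι → Set B) (S : Set B) (g : G)
    (h : ExP (mbd m) (fun p : G × ι => imT p.1 (T p.2) ⊆ S)) :
    ExP (mbd m) (fun p : G × ι => imT p.1 (T p.2) ⊆ imT g S) := by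
  intro x hx hdx
  have key : ∀ (k : G) (w : G × ι →₀ ℂ) (S' : Set B),
      SOn (fun p : G × ι => imT p.1 (T p.2) ⊆ S') w →
      SOn (fun p : G × ι => imT p.1 (T p.2) ⊆ imT k S') (prep (lact G ι) k w) := by
    rintro k w S' hw ⟨y, c⟩ hne
    rw [prep_lact_apply] at hne
    have h1 := hw (k⁻¹ * y, c) hne
    have h2 : imT k (imT (k⁻¹ * y) (T c)) ⊆ imT k S' := Set.image_mono h1
    rw [← imT_mul, mul_inv_cancel_left] at h2
    exact h2
  have h1 : SOn (fun p : G × ι => imT p.1 (T p.2) ⊆ S) (prep (lact G ι) g⁻¹ x) := by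
    have := key g⁻¹ x _ hx
    rw [imT_inv_imT] at this
    exact this
  have h2 : mbd m (prep (lact G ι) g⁻¹ x) = 0 := by
    rw [mbd_eqv, hdx, map_zero]
  obtain ⟨y, hy1, hy2⟩ := h _ h1 h2
  refine ⟨prep (lact G ι) g y, key g y _ hy1, ?_⟩
  rw [mbd_eqv, hy2, ← Module.End.mul_apply, ← map_mul, mul_inv_cancel, map_one]
  rfl

end translate

section tw

variable {G : Type*} [Group G] (H : Subgroup G) (χ : H →* ℂ)

/-- The twisted inclusion of group algebras. -/
noncomputable def tw : MonoidAlgebra ℂ H →ₐ[ℂ] MonoidAlgebra ℂ G :=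
  MonoidAlgebra.lift ℂ (MonoidAlgebra ℂ G) H
    { toFun := fun h => χ h⁻¹ • MonoidAlgebra.single (h : G) 1
      map_one' := by
        rw [inv_one, map_one, one_smul]
        rfl
      map_mul' := by
        intro g h
        rw [mul_inv_rev, map_mul, smul_mul_smul_comm, MonoidAlgebra.single_mul_single, mul_one,
          Subgroup.coe_mul, mul_comm (χ h⁻¹)] }

theorem tw_single (h : H) (r : ℂ) : tw H χ (MonoidAlgebra.single h r) =
    MonoidAlgebra.single (h : G) (r * χ h⁻¹) := by
  rw [tw, MonoidAlgebra.lift_single]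
  show r • (χ h⁻¹ • MonoidAlgebra.single (h : G) (1 : ℂ)) = _
  rw [smul_smul, MonoidAlgebra.smul_single, smul_eq_mul, mul_one]

theorem tw_coeff (b : MonoidAlgebra ℂ H) (h : H) : (tw H χ b).coeff h = b.coeff h * χ h⁻¹ := by
  classical
  induction b using MonoidAlgebra.induction_linear with
  | zero => simp
  | add a b ha hb =>
    rw [map_add, MonoidAlgebra.coeff_add, MonoidAlgebra.coeff_add, Finsupp.add_apply,
      Finsupp.add_apply, ha, hb, add_mul]
  | single g r =>
    rw [tw_single, MonoidAlgebra.coeff_single, MonoidAlgebra.coeff_single, Finsupp.single_apply,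
      Finsupp.single_apply]
    by_cases hg : g = h
    · subst hg
      simp
    · rw [if_neg hg, if_neg (by
        intro h2
        exact hg (Subtype.ext h2)), zero_mul]

theorem tw_mem {b : MonoidAlgebra ℂ H} {g : G} (h : (tw H χ b).coeff g ≠ 0) : g ∈ H := by
  classical
  by_contra hg
  apply h
  induction b using MonoidAlgebra.induction_linear with
  | zero => simp
  | add a b ha hb =>
    rw [map_add, MonoidAlgebra.coeff_add, Finsupp.add_apply]
    by_cases h1 : (tw H χ a).coeff g = 0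
    · by_cases h2 : (tw H χ b).coeff g = 0
      · rw [h1, h2, add_zero]
      · exact absurd (hb h2) h2
    · exact absurd (ha h1) h1
  | single k r =>
    rw [tw_single, MonoidAlgebra.coeff_single, Finsupp.single_apply, if_neg]
    rintro rfl
    exact hg k.2

theorem chi_mul (h : H) : χ h * χ h⁻¹ = 1 := by
  rw [← map_mul, mul_inv_cancel, map_one]

theorem chi_ne (h : H) : χ h ≠ 0 := left_ne_zero_of_mul_eq_one (chi_mul H χ h)

theorem tw_injective : Function.Injective (tw H χ) := by
  rw [injective_iff_map_eq_zero]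
  intro b hb
  apply MonoidAlgebra.coeff_injective
  ext h
  have h1 := tw_coeff H χ b h
  rw [hb] at h1
  have h2 : b.coeff h * χ h⁻¹ = 0 := by
    rw [← h1]
    rfl
  exact (mul_eq_zero.mp h2).resolve_right (chi_ne H χ h⁻¹)

/-- Elements supported on the subgroup are in the image. -/
theorem tw_surj (b : MonoidAlgebra ℂ G) (hb : ∀ g, b.coeff g ≠ 0 → g ∈ H) :
    ∃ u, tw H χ u = b := by
  classical
  refine ⟨MonoidAlgebra.ofCoeff (Finsupp.ofSupportFinite (fun h : H => b.coeff h * χ h) ?_), ?_⟩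
  · apply (Set.Finite.preimage (Subtype.val_injective.injOn)
      (b.coeff.finite_support)).subset
    intro h hh
    rw [Function.mem_support] at hh
    exact left_ne_zero_of_mul hh
  · apply MonoidAlgebra.coeff_injective
    ext g
    by_cases hg : g ∈ H
    · have h1 := tw_coeff H χ (MonoidAlgebra.ofCoeff (Finsupp.ofSupportFinite
        (fun h : H => b.coeff h * χ h) (by
          apply (Set.Finite.preimage (Subtype.val_injective.injOn)
            (b.coeff.finite_support)).subset
          intro h hh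
          rw [Function.mem_support] at hh
          exact left_ne_zero_of_mul hh))) ⟨g, hg⟩
      rw [h1]
      show b.coeff g * χ ⟨g, hg⟩ * χ (⟨g, hg⟩ : H)⁻¹ = b.coeff g
      rw [mul_assoc, chi_mul, mul_one]
    · by_contra hne
      have h2 : b.coeff g = 0 := by
        by_contra h3
        exact hg (hb g h3)
      rw [h2] at hne
      exact hg (tw_mem H χ hne)

end tw

variable {B G : Type*} [Group G] [MulAction G B] {𝒢 : Set (Set B)}

theorem rowE_prep {X ι : Type*} [Group X] [Fintype ι] (x : X) (F : X × ι →₀ ℂ) (c : ι) :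
    rowE (prep (lact X ι) x F) c = MonoidAlgebra.single x 1 * rowE F c := by
  apply MonoidAlgebra.coeff_injective
  ext y
  rw [rowE_coeff, prep_lact_apply, coeff_single_mul', one_mul, rowE_coeff]

namespace Att

variable {K : LCx B G 𝒢} {T₀ : Set B} {F : FreeRes (stS G T₀)} (A : Att K T₀ F)

/-- The attaching coefficients. -/
noncomputable def ps (c : F.cell) (c' : K.ι) : MonoidAlgebra ℂ G :=
  rowE (A.Ψ (Finsupp.single (1, c) 1)) c'

theorem rowE_Ψ (u : stS G T₀ × F.cell →₀ ℂ) (c' : K.ι) :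
    rowE (A.Ψ u) c' = ∑ c, tw _ A.χ (rowE u c) * A.ps c c' := by
  classical
  induction u using Finsupp.induction_linear with
  | zero => simp
  | add f g hf hg =>
    rw [map_add, map_add, Pi.add_apply, hf, hg, ← Finset.sum_add_distrib]
    apply Finset.sum_congr rfl
    intro c _
    rw [map_add, Pi.add_apply, map_add, add_mul]
  | single p r =>
    obtain ⟨h, c⟩ := p
    have e1 : (Finsupp.single (h, c) r : stS G T₀ × F.cell →₀ ℂ) =
        r • prep (lact (stS G T₀) F.cell) h (Finsupp.single (1, c) 1) := by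
      rw [prep_single, lact_apply, mul_one, Finsupp.smul_single, smul_eq_mul, mul_one]
    have e2 : A.Ψ (prep (lact (stS G T₀) F.cell) h (Finsupp.single (1, c) 1)) =
        A.χ h⁻¹ • prep (lact G K.ι) (h : G) (A.Ψ (Finsupp.single (1, c) 1)) := by
      rw [A.eqv, smul_smul, mul_comm, chi_mul, one_smul]
    have e3 : rowE (A.Ψ (Finsupp.single (h, c) r)) c' =
        MonoidAlgebra.single (h : G) (r * A.χ h⁻¹) * A.ps c c' := by
      rw [e1, map_smul, e2, map_smul, map_smul, Pi.smul_apply, Pi.smul_apply, rowE_prep,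
        smul_smul, ← smul_mul_assoc, MonoidAlgebra.smul_single, smul_eq_mul, mul_one]
      rfl
    rw [e3]
    simp_rw [rowE_single]
    rw [Finset.sum_eq_single c]
    · rw [if_pos rfl, tw_single]
    · intro c'' _ hne
      rw [if_neg hne, map_zero, zero_mul]
    · simp

/-- The boundary matrix of the extended complex. -/
noncomputable def cf : K.ι ⊕ F.cell → K.ι ⊕ F.cell → MonoidAlgebra ℂ G
  | Sum.inl c, Sum.inl c' => K.coef c c'
  | Sum.inl _, Sum.inr _ => 0
  | Sum.inr c, Sum.inl c' => A.ps c c'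
  | Sum.inr c, Sum.inr c' => tw _ A.χ (F.bdC c c')

theorem cf_ll (c c' : K.ι) : A.cf (Sum.inl c) (Sum.inl c') = K.coef c c' := rfl
theorem cf_lr (c : K.ι) (c' : F.cell) : A.cf (Sum.inl c) (Sum.inr c') = 0 := rfl
theorem cf_rl (c : F.cell) (c' : K.ι) : A.cf (Sum.inr c) (Sum.inl c') = A.ps c c' := rfl
theorem cf_rr (c c' : F.cell) : A.cf (Sum.inr c) (Sum.inr c') = tw _ A.χ (F.bdC c c') := rfl

theorem ps_sq (c : F.cell) (c'' : K.ι) : ∑ c', A.ps c c' * K.coef c' c'' +
    ∑ c', tw _ A.χ (F.bdC c c') * A.ps c' c'' = 0 := by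
  have h1 : rowE (mbd K.coef (A.Ψ (Finsupp.single (1, c) 1))) c'' =
      rowE (-A.Ψ (mbd F.bdC (Finsupp.single (1, c) 1))) c'' := by
    rw [A.hd]
  rw [mbd_eq, LinearEquiv.apply_symm_apply, vm_apply, map_neg, Pi.neg_apply, rowE_Ψ] at h1
  simp_rw [rowE_mbd_single] at h1
  have h2 : ∑ c', A.ps c c' * K.coef c' c'' =
      -∑ c', tw _ A.χ (F.bdC c c') * A.ps c' c'' := h1
  rw [h2, neg_add_cancel]

theorem cf_sq (c c'' : K.ι ⊕ F.cell) : ∑ c', A.cf c c' * A.cf c' c'' = 0 := by
  rw [Fintype.sum_sum_type]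
  rcases c with c | c <;> rcases c'' with c'' | c''
  · simp only [cf_ll, cf_lr, cf_rl, zero_mul, Finset.sum_const_zero, add_zero]
    exact K.sq c c''
  · simp only [cf_lr, cf_rr, zero_mul, mul_zero, Finset.sum_const_zero, add_zero]
  · simp only [cf_ll, cf_rl, cf_rr]
    exact A.ps_sq c c''
  · simp only [cf_lr, cf_rr, mul_zero, Finset.sum_const_zero, zero_add, ← map_mul, ← map_sum]
    rw [F.bdC_bdC, map_zero]

/-- The labels of the extended complex. -/
def Tn (_ : Att K T₀ F) : K.ι ⊕ F.cell → Set B := Sum.elim K.T (fun _ => T₀)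

/-- The degrees of the extended complex. -/
noncomputable def dg (_ : Att K T₀ F) : K.ι ⊕ F.cell → ℕ :=
  Sum.elim K.deg (fun c => F.dim c + T₀.ncard)

/-- The augmentation of the extended complex. -/
def an (_ : Att K T₀ F) : K.ι ⊕ F.cell → ℂ := Sum.elim K.a (fun _ => 0)

theorem Tn_l (c : K.ι) : A.Tn (Sum.inl c) = K.T c := rfl
theorem Tn_r (c : F.cell) : A.Tn (Sum.inr c) = T₀ := rfl

/-- The two components of a function. -/
noncomputable def p1 (_ : Att K T₀ F) (x : G × (K.ι ⊕ F.cell) →₀ ℂ) : G × K.ι →₀ ℂ :=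
  (rowE (R := ℂ)).symm (fun c => rowE x (Sum.inl c))

theorem p1_apply (x : G × (K.ι ⊕ F.cell) →₀ ℂ) (g : G) (c : K.ι) :
    A.p1 x (g, c) = x (g, Sum.inl c) := rfl

theorem rowE_p1 (x : G × (K.ι ⊕ F.cell) →₀ ℂ) (c : K.ι) :
    rowE (A.p1 x) c = rowE x (Sum.inl c) := by
  rw [p1, LinearEquiv.apply_symm_apply]

/-- Putting together two components. -/
noncomputable def jn (_ : Att K T₀ F) (a : G × K.ι →₀ ℂ) (b : F.cell → MonoidAlgebra ℂ G) :
    G × (K.ι ⊕ F.cell) →₀ ℂ :=
  (rowE (R := ℂ)).symm (Sum.elim (rowE a) b)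

theorem rowE_jn_l (a : G × K.ι →₀ ℂ) (b : F.cell → MonoidAlgebra ℂ G) (c : K.ι) :
    rowE (A.jn a b) (Sum.inl c) = rowE a c := by
  rw [jn, LinearEquiv.apply_symm_apply]
  rfl

theorem rowE_jn_r (a : G × K.ι →₀ ℂ) (b : F.cell → MonoidAlgebra ℂ G) (c : F.cell) :
    rowE (A.jn a b) (Sum.inr c) = b c := by
  rw [jn, LinearEquiv.apply_symm_apply]
  rfl

theorem jn_l (a : G × K.ι →₀ ℂ) (b : F.cell → MonoidAlgebra ℂ G) (g : G) (c : K.ι) :
    A.jn a b (g, Sum.inl c) = a (g, c) := by
  rw [← rowE_coeff, rowE_jn_l, rowE_coeff]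

theorem jn_r (a : G × K.ι →₀ ℂ) (b : F.cell → MonoidAlgebra ℂ G) (g : G) (c : F.cell) :
    A.jn a b (g, Sum.inr c) = (b c).coeff g := by
  rw [← rowE_coeff, rowE_jn_r]

theorem rowE_mbd_l (x : G × (K.ι ⊕ F.cell) →₀ ℂ) (c' : K.ι) :
    rowE (mbd A.cf x) (Sum.inl c') =
      ∑ c, rowE x (Sum.inl c) * K.coef c c' + ∑ c, rowE x (Sum.inr c) * A.ps c c' := by
  rw [mbd_eq, LinearEquiv.apply_symm_apply, vm_apply, Fintype.sum_sum_type]
  rfl

theorem rowE_mbd_r (x : G × (K.ι ⊕ F.cell) →₀ ℂ) (c' : F.cell) :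
    rowE (mbd A.cf x) (Sum.inr c') = ∑ c, rowE x (Sum.inr c) * tw _ A.χ (F.bdC c c') := by
  rw [mbd_eq, LinearEquiv.apply_symm_apply, vm_apply, Fintype.sum_sum_type]
  simp only [cf_lr, cf_rr, mul_zero, Finset.sum_const_zero, zero_add]

theorem rowE_ext {X ι : Type*} [Group X] [Fintype ι] {x y : X × ι →₀ ℂ}
    (h : ∀ c, rowE x c = rowE y c) : x = y :=
  (rowE (R := ℂ)).injective (funext h)

theorem rowE_mbd {X ι : Type*} [Group X] [Fintype ι] (m : ι → ι → MonoidAlgebra ℂ X)
    (x : X × ι →₀ ℂ) (c' : ι) : rowE (mbd m x) c' = ∑ c, rowE x c * m c c' := by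
  rw [mbd_eq, LinearEquiv.apply_symm_apply, vm_apply]

/-- A chain of the old complex. -/
theorem mbd_jn0 (a : G × K.ι →₀ ℂ) : mbd A.cf (A.jn a 0) = A.jn (mbd K.coef a) 0 := by
  apply rowE_ext
  rintro (c | c)
  · rw [rowE_mbd_l, rowE_jn_l, rowE_mbd]
    simp only [rowE_jn_l, rowE_jn_r, Pi.zero_apply, zero_mul, Finset.sum_const_zero, add_zero]
  · rw [rowE_mbd_r, rowE_jn_r]
    simp only [rowE_jn_r, Pi.zero_apply, zero_mul, Finset.sum_const_zero]

theorem eq_jn (x : G × (K.ι ⊕ F.cell) →₀ ℂ) (h : ∀ g c, x (g, Sum.inr c) = 0) :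
    x = A.jn (A.p1 x) 0 := by
  ext ⟨g, c | c⟩
  · rw [jn_l, p1_apply]
  · rw [jn_r, h]
    rfl

theorem augm_jn (a : G × K.ι →₀ ℂ) : augm A.an (A.jn a 0) = augm K.a a := by
  rw [augm_eq, augm_eq, Fintype.sum_sum_type]
  simp only [rowE_jn_l, rowE_jn_r, Pi.zero_apply, map_zero, zero_mul, Finset.sum_const_zero,
    add_zero]
  rfl

/-- Exactness, when there are no new cells. -/
theorem exact_old {P : G × (K.ι ⊕ F.cell) → Prop} (hP : ∀ g c, ¬ P (g, Sum.inr c))
    (hK : ExP (mbd K.coef) (fun p => P (p.1, Sum.inl p.2))) : ExP (mbd A.cf) P := by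
  intro x hx hdx
  have h0 : ∀ g c, x (g, Sum.inr c) = 0 := by
    intro g c
    by_contra hne
    exact hP g c (hx _ hne)
  have hx' := A.eq_jn x h0
  rw [hx', mbd_jn0] at hdx
  have h1 : mbd K.coef (A.p1 x) = 0 := by
    ext ⟨g, c⟩
    have := congrArg (fun w => w (g, Sum.inl c)) hdx
    simp only [jn_l] at this
    exact this
  obtain ⟨y, hy1, hy2⟩ := hK (A.p1 x) (fun p hp => hx (p.1, Sum.inl p.2) hp) h1
  refine ⟨A.jn y 0, ?_, ?_⟩
  · rintro ⟨g, c | c⟩ hne
    · rw [jn_l] at hne
      exact hy1 _ hne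
    · rw [jn_r] at hne
      exact absurd rfl hne
  · rw [mbd_jn0, hy2, ← hx']

theorem imT_ncard {T : Set B} (g : G) : (imT g T).ncard = T.ncard :=
  Set.ncard_image_of_injective T (MulAction.injective g)

theorem mem_stS_of_subset (hT : T₀.Finite) {g : G} (h : imT g T₀ ⊆ T₀) : g ∈ stS G T₀ :=
  Set.eq_of_subset_of_ncard_le h (imT_ncard g).ge hT

theorem exact_new (hinv : ∀ (g : G), ∀ T ∈ 𝒢, imT g T ∈ 𝒢) (hT : T₀.Finite)
    (hne : T₀.Nonempty) (hmem : T₀ ∉ 𝒢) :
    ExP (mbd A.cf) (fun p => imT p.1 (A.Tn p.2) ⊆ T₀) := by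
  intro x hx hdx
  have hlab : ∀ (g : G) (c : K.ι), imT g (K.T c) ⊆ T₀ → K.lab (g, c) ⊂ T₀ := by
    intro g c h
    refine h.ssubset_of_ne ?_
    rintro h1
    rcases K.T_mem c with h2 | h2
    · rw [h2] at h1
      rw [← h1] at hne
      simp [imT] at hne
    · apply hmem
      rw [← h1]
      exact hinv g _ h2
  -- the new part
  have hr : ∀ c : F.cell, ∃ u, tw _ A.χ u = rowE x (Sum.inr c) := by
    intro c
    apply tw_surj
    intro g hg
    rw [rowE_coeff] at hg
    exact mem_stS_of_subset hT (hx (g, Sum.inr c) hg)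
  choose ur hur using hr
  set u : stS G T₀ × F.cell →₀ ℂ := (rowE (R := ℂ)).symm ur with hu
  have hu1 : ∀ c, rowE u c = ur c := by
    intro c
    rw [hu, LinearEquiv.apply_symm_apply]
  have ha : SOn (fun p => K.lab p ⊂ T₀) (A.p1 x) := by
    rintro ⟨g, c⟩ hne'
    exact hlab g c (hx (g, Sum.inl c) hne')
  have h1 : mbd K.coef (A.p1 x) + A.Ψ u = 0 := by
    apply rowE_ext
    intro c'
    rw [map_add, Pi.add_apply, rowE_mbd, rowE_Ψ, map_zero, Pi.zero_apply]
    have h2 := A.rowE_mbd_l x c'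
    rw [hdx, map_zero, Pi.zero_apply] at h2
    rw [h2]
    congr 1
    · apply Finset.sum_congr rfl
      intro c _
      rw [rowE_p1]
    · apply Finset.sum_congr rfl
      intro c _
      rw [hu1, hur]
  have h2 : mbd F.bdC u = 0 := by
    apply rowE_ext
    intro c'
    rw [rowE_mbd, map_zero, Pi.zero_apply]
    apply tw_injective _ A.χ
    have h3 := A.rowE_mbd_r x c'
    rw [hdx, map_zero, Pi.zero_apply] at h3
    rw [map_zero, h3, map_sum]
    apply Finset.sum_congr rfl
    intro c _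
    rw [map_mul, hu1, hur]
  obtain ⟨a', u', k1, k2, k3⟩ := A.cone (A.p1 x) u ha h1 h2
  refine ⟨A.jn a' (fun c => tw _ A.χ (rowE u' c)), ?_, ?_⟩
  · rintro ⟨g, c | c⟩ hne'
    · rw [jn_l] at hne'
      exact (k1 _ hne').subset
    · rw [jn_r] at hne'
      have := tw_mem _ A.χ hne'
      exact (show imT g T₀ = T₀ from this).subset
  · apply rowE_ext
    rintro (c' | c')
    · rw [rowE_mbd_l]
      simp only [rowE_jn_l, rowE_jn_r]
      rw [← rowE_Ψ, ← rowE_mbd, ← Pi.add_apply, ← map_add, k2, rowE_p1]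
    · rw [rowE_mbd_r]
      simp only [rowE_jn_r, ← map_mul, ← map_sum]
      rw [← rowE_mbd, k3, hu1, hur]

end Att

theorem attach (hinv : ∀ (g : G), ∀ T ∈ 𝒢, imT g T ∈ 𝒢)
    (hdown : ∀ T ∈ 𝒢, ∀ S : Set B, S.Nonempty → S ⊆ T → S ∈ 𝒢) (K : LCx B G 𝒢)
    (T₀ : Set B) (hT : T₀.Finite) (hne : T₀.Nonempty) (hmem : T₀ ∉ 𝒢)
    (F : FreeRes (stS G T₀)) (A : Att K T₀ F) :
    ∃ K' : LCx B G (𝒢 ∪ {T | ∃ g : G, T = imT g T₀}), ∀ f : Set B → ℝ,
      K'.wsum f = K.wsum f + (-1 : ℝ) ^ T₀.ncard * (∑ c, (-1 : ℝ) ^ F.dim c) * f T₀ := by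
  have hn : 0 < T₀.ncard := (Set.ncard_pos hT).mpr hne
  let K' : LCx B G (𝒢 ∪ {T | ∃ g : G, T = imT g T₀}) :=
    { ι := K.ι ⊕ F.cell
      T := A.Tn
      deg := A.dg
      coef := A.cf
      a := A.an
      T_mem := by
        rintro (c | c)
        · rcases K.T_mem c with h | h
          · exact Or.inl h
          · exact Or.inr (Or.inl h)
        · exact Or.inr (Or.inr ⟨1, (imT_one T₀).symm⟩)
      label := by
        rintro (c | c) (c' | c') g hg
        · exact K.label c c' g hg
        · exact absurd rfl hg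
        · have h1 : A.Ψ (Finsupp.single (1, c) 1) (g, c') ≠ 0 := hg
          exact (A.supp _ _ h1).subset
        · exact (show imT g T₀ = T₀ from tw_mem _ A.χ hg).subset
      deg_coef := by
        rintro (c | c) (c' | c') h
        · exact K.deg_coef c c' h
        · exact absurd rfl h
        · obtain ⟨g, hg⟩ : ∃ g, (A.ps c c').coeff g ≠ 0 := by
            by_contra hcon
            push Not at hcon
            apply h
            apply MonoidAlgebra.coeff_injective
            ext g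
            exact hcon g
          have h1 : A.Ψ (Finsupp.single (1, c) 1) (g, c') ≠ 0 := hg
          have h2 : (Finsupp.single ((1 : stS G T₀), c) (1 : ℂ)) =
              gpr F.dim (F.dim c) (Finsupp.single (1, c) 1) := by
            ext ⟨h', c''⟩
            rw [gpr_apply]
            by_cases hc : c'' = c
            · subst hc
              rw [if_pos rfl]
            · rw [Finsupp.single_eq_of_ne (by
                intro h3
                exact hc (Prod.mk.inj h3).2)]
              simp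
          rw [h2, A.gr, gpr_apply] at h1
          have h3 : K.deg c' = F.dim c + (T₀.ncard - 1) := by
            by_contra h4
            exact h1 (if_neg h4)
          show F.dim c + T₀.ncard = K.deg c' + 1
          omega
        · have h1 : F.bdC c c' ≠ 0 := by
            rintro h0
            apply h
            rw [Att.cf_rr, h0, map_zero]
          have h2 := F.bdC_dim c c' h1
          show F.dim c + T₀.ncard = F.dim c' + T₀.ncard + 1
          omega
      sq := A.cf_sq
      a_deg := by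
        rintro (c | c) h
        · exact K.a_deg c h
        · exact absurd rfl h
      a_bd := by
        rintro (c | c) h
        · rw [Fintype.sum_sum_type]
          have h1 := K.a_bd c h
          rw [show (∑ c', eps (A.cf (Sum.inl c) (Sum.inl c')) * A.an (Sum.inl c')) = 0 from h1]
          rw [zero_add]
          apply Finset.sum_eq_zero
          intro c' _
          show _ * (0 : ℂ) = 0
          rw [mul_zero]
        · exfalso
          have h1 : T₀ = ∅ := h
          rw [h1] at hne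
          exact Set.not_nonempty_empty hne
      a_one := by
        obtain ⟨x, h1, h2⟩ := K.a_one
        refine ⟨A.jn x 0, ?_, ?_⟩
        · rintro ⟨g, c | c⟩ hne'
          · rw [Att.jn_l] at hne'
            exact h1 _ hne'
          · rw [Att.jn_r] at hne'
            exact absurd rfl hne'
        · rw [Att.augm_jn]
          exact h2
      ex := by
        rintro S (hS | ⟨g, rfl⟩)
        · apply A.exact_old
          · intro g c h
            have h1 : imT g T₀ ∈ 𝒢 := hdown S hS _ (by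
              obtain ⟨b, hb⟩ := hne
              exact ⟨g • b, b, hb, rfl⟩) h
            apply hmem
            have h2 := hinv g⁻¹ _ h1
            rwa [imT_inv_imT] at h2
          · exact K.ex S hS
        · exact exP_imT A.cf A.Tn T₀ g (A.exact_new hinv hT hne hmem)
      ex0 := by
        intro x hx hdx hax
        have h0 : ∀ g c, x (g, Sum.inr c) = 0 := by
          intro g c
          by_contra hne'
          have h1 : T₀ = ∅ := hx _ hne'
          rw [h1] at hne
          exact Set.not_nonempty_empty hne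
        have hx' := A.eq_jn x h0
        have h1 : mbd K.coef (A.p1 x) = 0 := by
          rw [hx', Att.mbd_jn0] at hdx
          ext ⟨g, c⟩
          have := congrArg (fun w => w (g, Sum.inl c)) hdx
          simp only [Att.jn_l] at this
          exact this
        have h2 : augm K.a (A.p1 x) = 0 := by
          rw [hx', Att.augm_jn] at hax
          exact hax
        obtain ⟨y, hy1, hy2⟩ := K.ex0 (A.p1 x) (fun p hp => hx (p.1, Sum.inl p.2) hp) h1 h2
        refine ⟨A.jn y 0, ?_, ?_⟩
        · rintro ⟨g, c | c⟩ hne'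
          · rw [Att.jn_l] at hne'
            exact hy1 _ hne'
          · rw [Att.jn_r] at hne'
            exact absurd rfl hne'
        · rw [Att.mbd_jn0, hy2, ← hx'] }
  refine ⟨K', fun f => ?_⟩
  show ∑ c : K.ι ⊕ F.cell, (-1 : ℝ) ^ A.dg c * f (A.Tn c) = _
  rw [Fintype.sum_sum_type]
  congr 1
  rw [Finset.mul_sum, Finset.sum_mul]
  apply Finset.sum_congr rfl
  intro c _
  show (-1 : ℝ) ^ (F.dim c + T₀.ncard) * f T₀ = _
  rw [pow_add]
  ring

end Pool.Agent.Lib.P9f173dR
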