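import Pool.Agent.Lib.P9f173d.Free

/-!
Exactness of equivariant cochains with coefficients: from the subgroups commensurable with a
commensurated subgroup to the whole group, by dimension shifting in the coefficients.
-/

namespace Pool.Agent.Lib.P9f173dR

open Pool.Agent.Lib.P9f173d LinearMap

open scoped Pointwise

section defs

variable {Γ : Type*} [Group Γ] {M : Type*} [AddCommGroup M] [Module ℂ M]
  {V : Type*} [AddCommGroup V] [Module ℂ V]

/-- Exactness of equivariant cochains with coefficients. -/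
def CEx (ρ : Representation ℂ Γ M) (d : M →ₗ[ℂ] M) (σ : Representation ℂ Γ V) : Prop :=
  ∀ f : M →ₗ[ℂ] V, Eqv ρ σ f → (∀ m, f (d m) = 0) →
    ∃ h : M →ₗ[ℂ] V, Eqv ρ σ h ∧ ∀ m, f m = h (d m)

/-- Exactness over all subgroups commensurable with `D`. -/
def Good (ρ : Representation ℂ Γ M) (d : M →ₗ[ℂ] M) (D : Subgroup Γ)
    (σ : Representation ℂ Γ V) : Prop :=
  ∀ S : Subgroup Γ, Subgroup.Commensurable S D →
    CEx (rrep ρ S.subtype) d (rrep σ S.subtype)

/-- Functions on `X` with values in `V`. -/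
def coind (X : Type*) [MulAction Γ X] (σ : Representation ℂ Γ V) :
    Representation ℂ Γ (X → V) where
  toFun g :=
    { toFun := fun φ x => σ g (φ (g⁻¹ • x))
      map_add' := by
        intro φ ψ
        funext x
        simp
      map_smul' := by
        intro r φ
        funext x
        simp }
  map_one' := by
    ext φ x
    simp
  map_mul' := by
    intro g h
    apply LinearMap.ext
    intro φ
    funext x
    simp [mul_smul]

theorem coind_apply (X : Type*) [MulAction Γ X] (σ : Representation ℂ Γ V) (g : Γ)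
    (φ : X → V) (x : X) : coind X σ g φ x = σ g (φ (g⁻¹ • x)) := rfl

/-- Constant functions. -/
def cst (X V : Type*) [AddCommGroup V] [Module ℂ V] : V →ₗ[ℂ] (X → V) where
  toFun v _ := v
  map_add' _ _ := rfl
  map_smul' _ _ := rfl

theorem cst_apply (X V : Type*) [AddCommGroup V] [Module ℂ V] (v : V) (x : X) :
    cst X V v x = v := rfl

theorem coind_cst (X : Type*) [MulAction Γ X] (σ : Representation ℂ Γ V) (g : Γ) (v : V) :
    coind X σ g (cst X V v) = cst X V (σ g v) := rfl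

theorem cst_injective (X V : Type*) [Nonempty X] [AddCommGroup V] [Module ℂ V] :
    Function.Injective (cst X V) := by
  intro v w h
  obtain ⟨x⟩ := ‹Nonempty X›
  exact congrFun h x

/-- Functions modulo constants. -/
abbrev Shf (X V : Type*) [AddCommGroup V] [Module ℂ V] := (X → V) ⧸ LinearMap.range (cst X V)

/-- The representation on functions modulo constants. -/
def shf (X : Type*) [MulAction Γ X] (σ : Representation ℂ Γ V) :
    Representation ℂ Γ (Shf X V) where
  toFun g := Submodule.mapQ _ _ (coind X σ g) (by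
    rintro _ ⟨v, rfl⟩
    exact ⟨σ g v, rfl⟩)
  map_one' := by
    apply LinearMap.ext
    intro q
    obtain ⟨φ, rfl⟩ := Submodule.Quotient.mk_surjective _ q
    rw [Submodule.mapQ_apply]
    simp
  map_mul' := by
    intro g h
    apply LinearMap.ext
    intro q
    obtain ⟨φ, rfl⟩ := Submodule.Quotient.mk_surjective _ q
    rw [Submodule.mapQ_apply]
    simp

theorem shf_mk (X : Type*) [MulAction Γ X] (σ : Representation ℂ Γ V) (g : Γ) (φ : X → V) :
    shf X σ g ((LinearMap.range (cst X V)).mkQ φ) =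
      (LinearMap.range (cst X V)).mkQ (coind X σ g φ) := rfl

theorem mkQ_cst (X : Type*) (v : V) : (LinearMap.range (cst X V)).mkQ (cst X V v) = 0 := by
  rw [Submodule.mkQ_apply, Submodule.Quotient.mk_eq_zero]
  exact ⟨v, rfl⟩

end defs

section good

variable {Γ : Type*} [Group Γ] {M : Type*} [AddCommGroup M] [Module ℂ M]
  {V : Type*} [AddCommGroup V] [Module ℂ V] {X : Type*} [MulAction Γ X]
  {ρ : Representation ℂ Γ M} {d : M →ₗ[ℂ] M} {D : Subgroup Γ} {σ : Representation ℂ Γ V}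

theorem comm_inf {S T D : Subgroup Γ} (hS : Subgroup.Commensurable S D)
    (hT : Subgroup.Commensurable T D) : Subgroup.Commensurable (S ⊓ T) D := by
  have h1 : Subgroup.Commensurable S T := hS.trans hT.symm
  refine Subgroup.Commensurable.trans (K := T) ?_ hT
  refine ⟨?_, ?_⟩
  · rw [Subgroup.inf_relIndex_right]
    exact h1.1
  · have h2 : T.relIndex (S ⊓ T) = 1 := by
      rw [Subgroup.relIndex_eq_one]
      exact inf_le_right
    rw [h2]
    exact one_ne_zero

theorem Good.coind (hst : ∀ x : X, Subgroup.Commensurable (MulAction.stabilizer Γ x) D)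
    (h : Good ρ d D σ) (hd : ∀ g m, d (ρ g m) = ρ g (d m)) : Good ρ d D (coind X σ) := by
  classical
  intro S hS f hf hfd
  have hf' : ∀ s : S, ∀ m x, f (ρ (s : Γ) m) x = σ (s : Γ) (f m ((s : Γ)⁻¹ • x)) := by
    intro s m x
    exact congrFun (hf s m) x
  let a : S →* Equiv.Perm X := (MulAction.toPermHom Γ X).comp S.subtype
  have ha : ∀ (s : S) (x : X), a s x = (s : Γ) • x := fun s x => rfl
  -- the components
  have comp : ∀ y : X, ∃ hy : M →ₗ[ℂ] V,
      (∀ t : Γ, t ∈ S → t • y = y → ∀ m, hy (ρ t m) = σ t (hy m)) ∧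
        ∀ m, f m y = hy (d m) := by
    intro y
    obtain ⟨hy, k1, k2⟩ := h (S ⊓ MulAction.stabilizer Γ y) (comm_inf hS (hst y))
      ((LinearMap.proj y : (X → V) →ₗ[ℂ] V) ∘ₗ f) (by
        rintro ⟨t, ht1, ht2⟩ m
        have e1 : (t⁻¹ • y : X) = y := by
          rw [inv_smul_eq_iff]
          exact (MulAction.mem_stabilizer_iff.mp ht2).symm
        have e2 := hf' ⟨t, ht1⟩ m y
        simp only at e2
        rw [e1] at e2
        exact e2) (by
        intro m
        have := congrFun (hfd m) y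
        exact this)
    refine ⟨hy, ?_, k2⟩
    intro t ht1 ht2 m
    exact k1 ⟨t, ht1, MulAction.mem_stabilizer_iff.mpr ht2⟩ m
  choose hh k1 k2 using comp
  choose s hs using fun x => exists_orep a x
  let g : M →ₗ[ℂ] (X → V) := LinearMap.pi fun x =>
    σ (s x : Γ)⁻¹ ∘ₗ hh (orep a x) ∘ₗ ρ (s x : Γ)
  have hg : ∀ m x, g m x = σ (s x : Γ)⁻¹ (hh (orep a x) (ρ (s x : Γ) m)) := fun m x => rfl
  have hσ : ∀ (u v : Γ) (w : V), σ (u * v) w = σ u (σ v w) := by
    intro u v w
    rw [map_mul]; rfl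
  have hρ : ∀ (u v : Γ) (w : M), ρ (u * v) w = ρ u (ρ v w) := by
    intro u v w
    rw [map_mul]; rfl
  have hσ1 : ∀ w : V, σ 1 w = w := by
    intro w
    rw [map_one]; rfl
  refine ⟨g, ?_, ?_⟩
  · intro t m
    funext x
    show g (ρ (t : Γ) m) x = σ (t : Γ) (g m ((t : Γ)⁻¹ • x))
    rw [hg, hg]
    set b : Γ := (s ((t : Γ)⁻¹ • x) : Γ) with hb
    set c : Γ := (s x : Γ) * (t : Γ) * b⁻¹ with hc
    have e0 : orep a ((t : Γ)⁻¹ • x) = orep a x := by
      have := orep_act a t⁻¹ x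
      rw [ha] at this
      simpa using this
    have e1 : b • ((t : Γ)⁻¹ • x) = orep a x := by
      have := hs ((t : Γ)⁻¹ • x)
      rw [ha, e0] at this
      exact this
    have e2 : (s x : Γ) • x = orep a x := by
      have := hs x
      rwa [ha] at this
    have e3 : c • orep a x = orep a x := by
      rw [hc, mul_smul, mul_smul, ← e1, inv_smul_smul, smul_inv_smul, e1, e2]
    have e4 : c ∈ S := S.mul_mem (S.mul_mem (s x).2 t.2) (S.inv_mem (s _).2)
    rw [e0, ← hσ]
    have e5 : ρ (s x : Γ) (ρ (t : Γ) m) = ρ c (ρ b m) := by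
      rw [← hρ, ← hρ, hc]
      congr 2
      group
    rw [e5, k1 _ c e4 e3, ← hσ]
    congr 2
    rw [hc]
    group
  · intro m
    funext x
    rw [hg]
    have e1 : ρ (s x : Γ) (d m) = d (ρ (s x : Γ) m) := (hd _ _).symm
    rw [e1, ← k2, hf' (s x) m, ← hσ, inv_mul_cancel, hσ1]
    congr 1
    have := hs x
    rw [ha] at this
    rw [← this, inv_smul_smul]

theorem Good.shf [Nonempty X]
    (hst : ∀ x : X, Subgroup.Commensurable (MulAction.stabilizer Γ x) D)
    (h : Good ρ d D σ) (hd : ∀ g m, d (ρ g m) = ρ g (d m)) (hdd : ∀ m, d (d m) = 0)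
    (hP : ∀ S : Subgroup Γ, Proj (rrep ρ S.subtype)) : Good ρ d D (shf X σ) := by
  intro S hS f hf hfd
  have hci := Good.coind hst h hd S hS
  obtain ⟨F, hF1, hF2⟩ := exists_lift (hP S) (σ := rrep (P9f173dR.coind X σ) S.subtype)
    (θ := rrep (P9f173dR.shf X σ) S.subtype) (d := (LinearMap.range (cst X V)).mkQ)
    (fun γ φ => rfl) (φ := f) hf
    (fun m => by
      obtain ⟨φ, hφ⟩ := Submodule.mkQ_surjective _ (f m)
      exact ⟨φ, hφ⟩)
  have hF2' : ∀ m, (LinearMap.range (cst X V)).mkQ (F m) = f m :=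
    fun m => congrArg (fun T => T m) hF2
  obtain ⟨x0⟩ := ‹Nonempty X›
  let G : M →ₗ[ℂ] V := (LinearMap.proj x0 : (X → V) →ₗ[ℂ] V) ∘ₗ F ∘ₗ d
  have hG : ∀ m, cst X V (G m) = F (d m) := by
    intro m
    have h1 := hF2' (d m)
    rw [hfd, Submodule.mkQ_apply, Submodule.Quotient.mk_eq_zero] at h1
    obtain ⟨v, hv⟩ := h1
    have h2 : G m = v := by
      show F (d m) x0 = v
      rw [← hv]; rfl
    rw [h2, hv]
  have hinj := @cst_injective X V ⟨x0⟩ _ _
  obtain ⟨H, H1, H2⟩ := h S hS G (by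
      intro s m
      apply hinj
      rw [hG]
      have e1 : d (rrep ρ S.subtype s m) = rrep ρ S.subtype s (d m) := hd _ _
      rw [e1, hF1, ← hG]
      rfl) (by
      intro m
      apply hinj
      rw [hG, hdd, map_zero, map_zero])
  obtain ⟨K, K1, K2⟩ := hci (F - cst X V ∘ₗ H) (by
      intro s m
      rw [LinearMap.sub_apply, LinearMap.sub_apply, hF1, map_sub]
      congr 1
      rw [comp_apply, comp_apply, H1]
      rfl) (by
      intro m
      rw [LinearMap.sub_apply, comp_apply, ← hG, ← H2, sub_self])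
  refine ⟨(LinearMap.range (cst X V)).mkQ ∘ₗ K, ?_, ?_⟩
  · intro s m
    rw [comp_apply, K1]
    rfl
  · intro m
    rw [comp_apply, ← K2, LinearMap.sub_apply, comp_apply, map_sub, mkQ_cst, sub_zero, hF2']

end good

section shift

universe u v w

variable {Γ : Type u} [Group Γ] (C : Cx.{u, v} Γ) (D : Subgroup Γ)

theorem stab_comm (hD : ∀ x : Γ, Subgroup.Commensurable (ConjAct.toConjAct x • D) D)
    (q : Γ ⧸ D) : Subgroup.Commensurable (MulAction.stabilizer Γ q) D := by
  obtain ⟨x, rfl⟩ := QuotientGroup.mk_surjective q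
  have h : MulAction.stabilizer Γ (QuotientGroup.mk x : Γ ⧸ D) =
      (ConjAct.toConjAct x • D : Subgroup Γ) := by
    ext g
    rw [MulAction.mem_stabilizer_iff, Subgroup.mem_pointwise_smul_iff_inv_smul_mem]
    have e : (g • (QuotientGroup.mk x : Γ ⧸ D)) = QuotientGroup.mk (g * x) := rfl
    rw [e, eq_comm, QuotientGroup.eq, ← ConjAct.toConjAct_inv, ConjAct.toConjAct_smul,
      inv_inv, mul_assoc]
  rw [h]
  exact hD x

theorem shift_aux (hD : ∀ x : Γ, Subgroup.Commensurable (ConjAct.toConjAct x • D) D)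
    (hP : ∀ S : Subgroup Γ, Proj (rrep C.ρ S.subtype)) (hP' : Proj C.ρ) (k : ℕ) :
    ∀ (V : Type (max u w)) [AddCommGroup V] [Module ℂ V] (σ : Representation ℂ Γ V),
      Good C.ρ C.d D σ → ∀ f : C.V →ₗ[ℂ] V, Eqv C.ρ σ f → (∀ m, f (C.d m) = 0) →
        (∀ m, f (C.e k m) = f m) → ∃ h : C.V →ₗ[ℂ] V, Eqv C.ρ σ h ∧ ∀ m, f m = h (C.d m) := by
  induction k with
  | zero =>
    intro V _ _ σ hG f hf hfd hfe
    obtain ⟨H, _, H2⟩ := hG D (Subgroup.Commensurable.refl D) f (fun s m => hf s m) hfd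
    refine ⟨0, fun g m => by simp, ?_⟩
    intro m
    rw [← hfe, H2, C.d_e0, map_zero]
    rfl
  | succ k ih =>
    intro V _ _ σ hG f hf hfd hfe
    obtain ⟨H0, H01, H02⟩ := hG D (Subgroup.Commensurable.refl D) f (fun s m => hf s m) hfd
    set H : C.V →ₗ[ℂ] V := H0 ∘ₗ C.e k with hH
    have H1 : ∀ t : Γ, t ∈ D → ∀ m, H (C.ρ t m) = σ t (H m) := by
      intro t ht m
      rw [hH, comp_apply, comp_apply, C.ρ_e]
      exact H01 ⟨t, ht⟩ (C.e k m)
    have H2 : ∀ m, H (C.d m) = f m := by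
      intro m
      rw [hH, comp_apply, ← C.d_e, ← H02, hfe]
    have H3 : ∀ m, H (C.e k m) = H m := by
      intro m
      rw [hH, comp_apply, comp_apply, C.e_idem]
    have hσ : ∀ (u v : Γ) (w : V), σ (u * v) w = σ u (σ v w) := by
      intro u v w
      rw [map_mul]; rfl
    have hρ : ∀ (u v : Γ) (w : C.V), C.ρ (u * v) w = C.ρ u (C.ρ v w) := by
      intro u v w
      rw [map_mul]; rfl
    have hσ1 : ∀ w : V, σ 1 w = w := by
      intro w
      rw [map_one]; rfl
    have hρ1 : ∀ w : C.V, C.ρ 1 w = w := by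
      intro w
      rw [map_one]; rfl
    let HQ : C.V →ₗ[ℂ] (Γ ⧸ D → V) := LinearMap.pi fun q => σ q.out ∘ₗ H ∘ₗ C.ρ (q.out)⁻¹
    have hHQ : ∀ m (g : Γ), HQ m (QuotientGroup.mk g) = σ g (H (C.ρ g⁻¹ m)) := by
      intro m g
      have e0 : HQ m (QuotientGroup.mk g) = σ (QuotientGroup.mk (s := D) g).out
        (H (C.ρ (QuotientGroup.mk (s := D) g).out⁻¹ m)) := rfl
      rw [e0]
      obtain ⟨t, ht⟩ := QuotientGroup.mk_out_eq_mul D g
      rw [ht, mul_inv_rev, hρ, H1 _ (D.inv_mem t.2), ← hσ]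
      congr 2
      group
    have HQ1 : Eqv C.ρ (coind (Γ ⧸ D) σ) HQ := by
      intro g m
      funext q
      obtain ⟨x, rfl⟩ := QuotientGroup.mk_surjective q
      rw [coind_apply, hHQ]
      have e : (g⁻¹ • (QuotientGroup.mk x : Γ ⧸ D)) = QuotientGroup.mk (g⁻¹ * x) := rfl
      rw [e, hHQ, ← hσ, ← hρ]
      congr 2
      · group
      · congr 2
        group
    have HQ2 : ∀ m, HQ (C.d m) = cst (Γ ⧸ D) V (f m) := by
      intro m
      funext q
      obtain ⟨x, rfl⟩ := QuotientGroup.mk_surjective q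
      rw [hHQ, cst_apply]
      have e : C.ρ x⁻¹ (C.d m) = C.d (C.ρ x⁻¹ m) := (C.ρ_d _ _).symm
      rw [e, H2, hf, ← hσ, mul_inv_cancel, hσ1]
    have HQ3 : ∀ m, HQ (C.e k m) = HQ m := by
      intro m
      funext q
      obtain ⟨x, rfl⟩ := QuotientGroup.mk_surjective q
      rw [hHQ, hHQ, ← C.ρ_e, H3]
    have hst := stab_comm D hD
    have hne : Nonempty (Γ ⧸ D) := ⟨QuotientGroup.mk 1⟩
    have hG' : Good C.ρ C.d D (shf (Γ ⧸ D) σ) :=
      hG.shf hst (fun g m => C.ρ_d g m) C.d_d hP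
    obtain ⟨h', h'1, h'2⟩ := ih (Shf (Γ ⧸ D) V) (shf (Γ ⧸ D) σ) hG'
      ((LinearMap.range (cst (Γ ⧸ D) V)).mkQ ∘ₗ HQ)
      (by
        intro g m
        rw [comp_apply, comp_apply, HQ1]
        rfl)
      (by
        intro m
        rw [comp_apply, HQ2, mkQ_cst])
      (by
        intro m
        rw [comp_apply, comp_apply, HQ3])
    obtain ⟨K, K1, K2⟩ := exists_lift hP' (σ := coind (Γ ⧸ D) σ) (θ := shf (Γ ⧸ D) σ)
      (d := (LinearMap.range (cst (Γ ⧸ D) V)).mkQ) (fun γ φ => rfl) (φ := h') h'1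
      (fun m => by
        obtain ⟨φ, hφ⟩ := Submodule.mkQ_surjective _ (h' m)
        exact ⟨φ, hφ⟩)
    have K2' : ∀ m, (LinearMap.range (cst (Γ ⧸ D) V)).mkQ (K m) = h' m :=
      fun m => congrArg (fun T => T m) K2
    let L : C.V →ₗ[ℂ] V := (LinearMap.proj (QuotientGroup.mk 1 : Γ ⧸ D) : (Γ ⧸ D → V) →ₗ[ℂ] V) ∘ₗ
      (HQ - K ∘ₗ C.d)
    have hL : ∀ m, cst (Γ ⧸ D) V (L m) = HQ m - K (C.d m) := by
      intro m
      have h1 : (LinearMap.range (cst (Γ ⧸ D) V)).mkQ (HQ m - K (C.d m)) = 0 := by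
        rw [map_sub, K2', ← h'2, comp_apply, sub_self]
      rw [Submodule.mkQ_apply, Submodule.Quotient.mk_eq_zero] at h1
      obtain ⟨v, hv⟩ := h1
      have h2 : L m = v := by
        show (HQ m - K (C.d m)) (QuotientGroup.mk 1) = v
        rw [← hv]; rfl
      rw [h2, hv]
    have hinj := cst_injective (Γ ⧸ D) V
    refine ⟨L, ?_, ?_⟩
    · intro g m
      apply hinj
      rw [hL, HQ1, C.ρ_d, K1, ← map_sub, ← hL]
      rfl
    · intro m
      apply hinj
      rw [hL, HQ2, C.d_d, map_zero, sub_zero]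

theorem shift (hD : ∀ x : Γ, Subgroup.Commensurable (ConjAct.toConjAct x • D) D)
    (hP : ∀ S : Subgroup Γ, Proj (rrep C.ρ S.subtype)) (hP' : Proj C.ρ)
    (V : Type (max u w)) [AddCommGroup V] [Module ℂ V] (σ : Representation ℂ Γ V)
    (hG : Good C.ρ C.d D σ) : CEx C.ρ C.d σ := by
  intro f hf hfd
  have h := fun k : ℕ => shift_aux.{u, v, w} C D hD hP hP' k V σ hG (f ∘ₗ C.e k)
    (by
      intro g m
      rw [comp_apply, comp_apply, C.ρ_e, hf])
    (by
      intro m
      rw [comp_apply, ← C.d_e, hfd])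
    (by
      intro m
      rw [comp_apply, comp_apply, C.e_idem])
  choose hh k1 k2 using h
  refine ⟨∑ k ∈ Finset.range (C.bd + 1), hh k, ?_, ?_⟩
  · intro g m
    rw [LinearMap.sum_apply, LinearMap.sum_apply, map_sum]
    exact Finset.sum_congr rfl fun k _ => k1 k g m
  · intro m
    rw [LinearMap.sum_apply]
    conv_lhs => rw [← C.e_sum m]
    rw [map_sum]
    exact Finset.sum_congr rfl fun k _ => k2 k m

end shift

end Pool.Agent.Lib.P9f173dR
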