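import Pool.Agent.Lib.P9f173dR.Bdd
import Pool.Agent.Lib.P9f173dR.Shift

/-!
Exactness with coefficients in the square-summable functions on a free set.
-/

namespace Pool.Agent.Lib.P9f173dR

open Pool.Agent.Lib.P9f173d LinearMap

theorem norm_add_sq_le (a b : ℂ) : ‖a + b‖ ^ 2 ≤ 2 * ‖a‖ ^ 2 + 2 * ‖b‖ ^ 2 := by
  have h3 : ‖a + b‖ ^ 2 ≤ (‖a‖ + ‖b‖) ^ 2 :=
    pow_le_pow_left₀ (norm_nonneg _) (norm_add_le a b) 2
  nlinarith [sq_nonneg (‖a‖ - ‖b‖)]

section fam

variable {Γ Δ Q M : Type*} [Group Γ] [Group Δ] [AddCommGroup M] [Module ℂ M]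

/-- Square-summable families of functionals. -/
def HHQ (ρ : Representation ℂ Γ M) (u : Q → M →ₗ[ℂ] ℂ) : Prop :=
  ∀ m, Summable fun p : Q × Γ => ‖u p.1 (ρ p.2 m)‖ ^ 2

theorem HHQ.restrict {ρ : Representation ℂ Γ M} {β : Δ →* Γ} (hβ : Function.Injective β)
    {u : Q → M →ₗ[ℂ] ℂ} (h : HHQ ρ u) : HHQ (rrep ρ β) u := by
  intro m
  have h1 : Function.Injective (Prod.map (_root_.id : Q → Q) β) := Function.injective_id.prodMap hβ
  refine ((h m).comp_injective h1).congr ?_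
  intro p
  rfl

/-- The bijection of a group with cosets times a subgroup. -/
noncomputable def cosE {β : Δ →* Γ} (hβ : Function.Injective β) :
    (Γ ⧸ β.range) × Δ ≃ Γ :=
  Equiv.ofBijective (fun p => β p.2 * (p.1.out)⁻¹) (by
    constructor
    · rintro ⟨q, γ⟩ ⟨q', γ'⟩ h
      simp only at h
      have h1 : q = q' := by
        have e1 : q.out = (β γ * q.out⁻¹)⁻¹ * β γ := by group
        have e2 : q'.out = (β γ' * q'.out⁻¹)⁻¹ * β γ' := by group
        rw [← QuotientGroup.out_eq' q, ← QuotientGroup.out_eq' q', QuotientGroup.eq, e1, e2, h]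
        have : ((β γ' * q'.out⁻¹)⁻¹ * β γ)⁻¹ * ((β γ' * q'.out⁻¹)⁻¹ * β γ') = β (γ⁻¹ * γ') := by
          rw [map_mul, map_inv]; group
        rw [this]
        exact ⟨_, rfl⟩
      subst h1
      have h2 : β γ = β γ' := mul_right_cancel h
      rw [hβ h2]
    · intro x
      have h1 : (QuotientGroup.mk (s := β.range) x⁻¹ : Γ ⧸ β.range) =
          QuotientGroup.mk (QuotientGroup.mk (s := β.range) x⁻¹ : Γ ⧸ β.range).out :=
        (QuotientGroup.out_eq' _).symm
      rw [QuotientGroup.eq] at h1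
      obtain ⟨γ, hγ⟩ := h1
      refine ⟨(QuotientGroup.mk x⁻¹, γ), ?_⟩
      simp only
      rw [hγ]
      group)

theorem cosE_apply {β : Δ →* Γ} (hβ : Function.Injective β) (q : Γ ⧸ β.range) (γ : Δ) :
    cosE hβ (q, γ) = β γ * (q.out)⁻¹ := rfl

theorem HHQ.extend {ρ : Representation ℂ Γ M} {β : Δ →* Γ} (hβ : Function.Injective β)
    [hfi : β.range.FiniteIndex] {u : Q → M →ₗ[ℂ] ℂ} (h : HHQ (rrep ρ β) u) : HHQ ρ u := by
  intro m
  have hfin : Finite (Γ ⧸ β.range) := inferInstance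
  let F : (Γ ⧸ β.range) × (Q × Δ) ≃ Q × Γ :=
    ((Equiv.prodAssoc (Γ ⧸ β.range) Q Δ).symm.trans
      (((Equiv.prodComm (Γ ⧸ β.range) Q).prodCongr (Equiv.refl Δ)).trans
        (Equiv.prodAssoc Q (Γ ⧸ β.range) Δ))).trans ((Equiv.refl Q).prodCongr (cosE hβ))
  have hF : ∀ q a γ, F (q, (a, γ)) = (a, β γ * (q.out)⁻¹) := fun q a γ => rfl
  clear_value F
  have hs : Summable fun p : (Γ ⧸ β.range) × (Q × Δ) => ‖u (F p).1 (ρ (F p).2 m)‖ ^ 2 := by
    rw [summable_prod_of_nonneg (fun p => by positivity)]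
    refine ⟨?_, ?_⟩
    · intro q
      refine (h (ρ (q.out)⁻¹ m)).congr ?_
      rintro ⟨a, γ⟩
      rw [hF, rrep_apply]
      simp only
      rw [map_mul]
      rfl
    · exact Summable.of_finite
  have h5 : Summable ((fun x : Q × Γ => ‖u x.1 (ρ x.2 m)‖ ^ 2) ∘ F) := hs
  exact F.summable_iff.mp h5

theorem HHQ_of_basis {Y : Type*} (a : Γ →* Equiv.Perm Y) (u : Q → (Y →₀ ℂ) →ₗ[ℂ] ℂ)
    (h : ∀ y, Summable fun p : Q × Γ => ‖u p.1 (Finsupp.single (a p.2 y) 1)‖ ^ 2) :
    HHQ (prep a) u := by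
  intro m
  induction m using Finsupp.induction_linear with
  | zero => simp [summable_zero]
  | add f g hf hg =>
    refine Summable.of_nonneg_of_le (fun γ => by positivity) ?_ ((hf.mul_left 2).add (hg.mul_left 2))
    intro p
    rw [map_add, map_add]
    exact norm_add_sq_le _ _
  | single y c =>
    have := (h y).mul_left (‖c‖ ^ 2)
    refine this.congr ?_
    intro p
    rw [prep_single]
    have e : (Finsupp.single (a p.2 y) c : Y →₀ ℂ) = c • Finsupp.single (a p.2 y) 1 := by simp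
    rw [e, map_smul, smul_eq_mul, norm_mul, mul_pow]

end fam

section famex

variable {Γ : Type*} [Group Γ] (R : FreeRes Γ) {Δ Q : Type*} [Group Δ]
  {H : Type*} [NormedAddCommGroup H] [InnerProductSpace ℂ H] [CompleteSpace H]
  {b : HilbertBasis Γ ℂ H} {ρ : Γ →* (H →L[ℂ] H)}

theorem fam_exact (hρ : ∀ g h, ρ g (b h) = b (g * h)) (hcon : ∀ i, Subsingleton (R.HRed ρ i))
    (β : Δ →* Γ) (hβ : Function.Injective β) [β.range.FiniteIndex]
    (u : Q → (Γ × R.cell →₀ ℂ) →ₗ[ℂ] ℂ)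
    (hu : HHQ (rrep (prep (lact Γ R.cell)) β) u)
    (hud : ∀ q (v : Γ × R.cell →₀ ℂ), u q (mbd R.bdC v) = 0) :
    ∃ w : Q → (Γ × R.cell →₀ ℂ) →ₗ[ℂ] ℂ, HHQ (rrep (prep (lact Γ R.cell)) β) w ∧
      ∀ q (v : Γ × R.cell →₀ ℂ), u q v = w q (mbd R.bdC v) := by
  obtain ⟨K, hK, hb⟩ := R.hhExact_bdd hρ hcon
  have hu' := HHQ.extend hβ hu
  have hs : ∀ c, Summable fun p : Q × Γ => ‖u p.1 (Finsupp.single (p.2, c) 1)‖ ^ 2 := by
    intro c
    refine (hu' (Finsupp.single ((1 : Γ), c) 1)).congr ?_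
    intro p
    rw [prep_single, lact_apply, mul_one]
  have hs1 : ∀ q c, Summable fun g : Γ => ‖u q (Finsupp.single (g, c) 1)‖ ^ 2 :=
    fun q c => (hs c).prod_factor q
  choose w hw1 hw2 using fun q => hb (u q) (hs1 q) (hud q)
  refine ⟨w, ?_, hw2⟩
  apply HHQ.restrict hβ
  apply HHQ_of_basis
  rintro ⟨x, c⟩
  have h1 : Summable fun p : Q × Γ => ‖w p.1 (Finsupp.single (p.2, c) 1)‖ ^ 2 := by
    rw [summable_prod_of_nonneg (fun p => by positivity)]
    refine ⟨fun q => (hw1 q c).1, ?_⟩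
    have h2 : Summable fun q : Q => K * ∑ c', ∑' g : Γ, ‖u q (Finsupp.single (g, c') 1)‖ ^ 2 :=
      (summable_sum fun c' _ => (hs c').prod).mul_left K
    exact Summable.of_nonneg_of_le (fun q => tsum_nonneg fun g => by positivity)
      (fun q => (hw1 q c).2) h2
  have h2 : Function.Injective (Prod.map (_root_.id : Q → Q) (fun g : Γ => g * x)) :=
    Function.injective_id.prodMap (mul_left_injective x)
  refine (h1.comp_injective h2).congr ?_
  intro p
  rfl

end famex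

section sq

variable {Δ X : Type*} [Group Δ]

/-- Square-summable functions. -/
def sqS (X : Type*) : Submodule ℂ (X → ℂ) where
  carrier := {φ | Summable fun x => ‖φ x‖ ^ 2}
  add_mem' := by
    intro φ ψ hφ hψ
    exact Summable.of_nonneg_of_le (fun x => by positivity) (fun x => norm_add_sq_le _ _)
      ((Summable.mul_left 2 hφ).add (Summable.mul_left 2 hψ))
  zero_mem' := by
    show Summable fun x => ‖(0 : X → ℂ) x‖ ^ 2
    simp [summable_zero]
  smul_mem' := by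
    intro r φ hφ
    refine (Summable.mul_left (‖r‖ ^ 2) hφ).congr ?_
    intro x
    rw [Pi.smul_apply, smul_eq_mul, norm_mul, mul_pow]

theorem sqS_summable (φ : sqS X) : Summable fun x => ‖(φ : X → ℂ) x‖ ^ 2 := φ.2

/-- The regular representation on square-summable functions. -/
def sqR (a : Δ →* Equiv.Perm X) : Representation ℂ Δ (sqS X) where
  toFun g :=
    { toFun := fun φ => ⟨fun x => (φ : X → ℂ) (a g⁻¹ x),
        (sqS_summable φ).comp_injective (a g⁻¹).injective⟩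
      map_add' := by
        intro φ ψ
        rfl
      map_smul' := by
        intro r φ
        rfl }
  map_one' := by
    ext φ x
    simp
  map_mul' := by
    intro g h
    ext φ x
    simp

theorem sqR_apply (a : Δ →* Equiv.Perm X) (g : Δ) (φ : sqS X) (x : X) :
    (sqR a g φ : X → ℂ) x = (φ : X → ℂ) (a g⁻¹ x) := rfl

/-- Coordinates on a free set. -/
noncomputable def feq (a : Δ →* Equiv.Perm X) (hfree : ∀ γ y, a γ y = y → γ = 1) :
    Quotient (orel a) × Δ ≃ X :=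
  Equiv.ofBijective (fun p => a p.2⁻¹ p.1.out) (by
    constructor
    · rintro ⟨q, γ⟩ ⟨q', γ'⟩ h
      simp only at h
      have e : ∀ (q : Quotient (orel a)) (γ : Δ), Quotient.mk (orel a) (a γ q.out) = q := by
        intro q γ
        conv_rhs => rw [← Quotient.out_eq q]
        apply Quotient.sound
        exact ⟨γ⁻¹, by simp⟩
      have h1 : q = q' := by
        rw [← e q γ⁻¹, ← e q' γ'⁻¹, h]
      subst h1
      have h2 : a (γ' * γ⁻¹) q.out = q.out := by
        rw [map_mul, Equiv.Perm.mul_apply, h, ← Equiv.Perm.mul_apply, ← map_mul]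
        simp
      have h3 := hfree _ _ h2
      rw [mul_inv_eq_one] at h3
      rw [h3]
    · intro x
      obtain ⟨γ, hγ⟩ := exists_orep a x
      refine ⟨(Quotient.mk (orel a) x, γ), ?_⟩
      show a γ⁻¹ (orep a x) = x
      rw [← hγ, ← Equiv.Perm.mul_apply, ← map_mul]
      simp)

theorem feq_apply (a : Δ →* Equiv.Perm X) (hfree : ∀ γ y, a γ y = y → γ = 1)
    (q : Quotient (orel a)) (γ : Δ) : feq a hfree (q, γ) = a γ⁻¹ q.out := rfl

end sq

section base

variable {Γ : Type*} [Group Γ] (R : FreeRes Γ) {Δ X : Type*} [Group Δ]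
  {H : Type*} [NormedAddCommGroup H] [InnerProductSpace ℂ H] [CompleteSpace H]
  {b : HilbertBasis Γ ℂ H} {ρ : Γ →* (H →L[ℂ] H)}

theorem base_exact (hρ : ∀ g h, ρ g (b h) = b (g * h)) (hcon : ∀ i, Subsingleton (R.HRed ρ i))
    (β : Δ →* Γ) (hβ : Function.Injective β) [β.range.FiniteIndex]
    (a : Δ →* Equiv.Perm X) (hfree : ∀ γ y, a γ y = y → γ = 1) :
    CEx (R.toCx β).ρ (R.toCx β).d (sqR a) := by
  intro f hf hfd
  set e := feq a hfree with he
  set M := (Γ × R.cell →₀ ℂ) with hM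
  let ρM : Representation ℂ Δ (Γ × R.cell →₀ ℂ) := rrep (prep (lact Γ R.cell)) β
  let f' : (Γ × R.cell →₀ ℂ) →ₗ[ℂ] sqS X := f
  have hf' : ∀ (δ : Δ) (m : Γ × R.cell →₀ ℂ) (x : X),
      (f' (ρM δ m) : X → ℂ) x = (f' m : X → ℂ) (a δ⁻¹ x) := by
    intro δ m x
    exact congrArg (fun φ : sqS X => (φ : X → ℂ) x) (hf δ m)
  let u : Quotient (orel a) → (Γ × R.cell →₀ ℂ) →ₗ[ℂ] ℂ := fun q =>
    (LinearMap.proj q.out : (X → ℂ) →ₗ[ℂ] ℂ) ∘ₗ (sqS X).subtype ∘ₗ f'
  have hu : ∀ q δ m, u q (ρM δ m) = (f' m : X → ℂ) (e (q, δ)) := by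
    intro q δ m
    rw [he, feq_apply, ← hf']
    rfl
  obtain ⟨w, hw1, hw2⟩ := fam_exact R hρ hcon β hβ u (by
    intro m
    have h1 : Summable fun p : Quotient (orel a) × Δ => ‖(f' m : X → ℂ) (e p)‖ ^ 2 :=
      (sqS_summable (f' m)).comp_injective e.injective
    refine h1.congr ?_
    rintro ⟨q, δ⟩
    rw [← hu]) (by
    intro q v
    have h1 := congrArg (fun φ : sqS X => (φ : X → ℂ) q.out) (hfd v)
    exact h1)
  have hsum : ∀ m : Γ × R.cell →₀ ℂ,
      Summable fun x : X => ‖w (e.symm x).1 (ρM (e.symm x).2 m)‖ ^ 2 := by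
    intro m
    exact (hw1 m).comp_injective e.symm.injective
  let h : (Γ × R.cell →₀ ℂ) →ₗ[ℂ] sqS X :=
    { toFun := fun m => ⟨fun x => w (e.symm x).1 (ρM (e.symm x).2 m), hsum m⟩
      map_add' := by
        intro m m'
        ext x
        simp only [map_add, Submodule.coe_add, Pi.add_apply]
      map_smul' := by
        intro r m
        ext x
        simp only [map_smul, Submodule.coe_smul, Pi.smul_apply, RingHom.id_apply] }
  have hh : ∀ m q δ, (h m : X → ℂ) (e (q, δ)) = w q (ρM δ m) := by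
    intro m q δ
    show w (e.symm (e (q, δ))).1 (ρM (e.symm (e (q, δ))).2 m) = _
    rw [Equiv.symm_apply_apply]
  refine ⟨h, ?_, ?_⟩
  · intro γ m
    apply Subtype.ext
    funext x
    obtain ⟨⟨q, δ⟩, rfl⟩ := e.surjective x
    rw [sqR_apply]
    have e1 : a γ⁻¹ (e (q, δ)) = e (q, δ * γ) := by
      rw [he, feq_apply, feq_apply, mul_inv_rev, map_mul, Equiv.Perm.mul_apply]
    rw [e1]
    have e2 : (h ((R.toCx β).ρ γ m) : X → ℂ) (e (q, δ)) = w q (ρM δ (ρM γ m)) := hh _ q δ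
    refine e2.trans ?_
    have e3 : (h m : X → ℂ) (e (q, δ * γ)) = w q (ρM (δ * γ) m) := hh _ _ _
    refine Eq.trans ?_ e3.symm
    rw [map_mul]
    rfl
  · intro m
    apply Subtype.ext
    funext x
    obtain ⟨⟨q, δ⟩, rfl⟩ := e.surjective x
    have e2 : (h ((R.toCx β).d m) : X → ℂ) (e (q, δ)) = w q (ρM δ (mbd R.bdC m)) := hh _ q δ
    refine Eq.trans ?_ e2.symm
    have e3 : ρM δ (mbd R.bdC m) = mbd R.bdC (ρM δ m) := ((R.toCx β).ρ_d δ m).symm
    rw [e3, ← hw2, hu]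
    rfl

end base

end Pool.Agent.Lib.P9f173dR
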