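import Pool.Agent.Lib.P9f173d.CStar

/-!
Vanishing of homology with coefficients in the reduced algebra gives exactness on
square-summable functionals, with a uniform bound.
-/

namespace Pool.Agent.Lib.P9f173d

open LinearMap

theorem norm_sq_L2 {J : Type*} (f : L2 J) : ‖f‖ ^ 2 = ∑' j, ‖f j‖ ^ 2 := by
  have h1 := lp.norm_rpow_eq_tsum (p := 2) (by norm_num) f
  simpa using h1

namespace FreeRes

variable {Γ : Type*} [Group Γ] (R : FreeRes Γ)

section hilb

variable {H : Type*} [NormedAddCommGroup H] [InnerProductSpace ℂ H] [CompleteSpace H]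
  {b : HilbertBasis Γ ℂ H} {ρ : Γ →* (H →L[ℂ] H)}

theorem hhExact_bdd (hρ : ∀ g h, ρ g (b h) = b (g * h)) (h : ∀ i, Subsingleton (R.HRed ρ i)) :
    ∃ K : ℝ, 0 ≤ K ∧ ∀ u : (Γ × R.cell →₀ ℂ) →ₗ[ℂ] ℂ,
      (∀ c, Summable fun g : Γ => ‖u (Finsupp.single (g, c) 1)‖ ^ 2) →
      (∀ v : Γ × R.cell →₀ ℂ, u (mbd R.bdC v) = 0) →
      ∃ w : (Γ × R.cell →₀ ℂ) →ₗ[ℂ] ℂ,
        (∀ c, (Summable fun g : Γ => ‖w (Finsupp.single (g, c) 1)‖ ^ 2) ∧
          ∑' g : Γ, ‖w (Finsupp.single (g, c) 1)‖ ^ 2 ≤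
            K * ∑ c', ∑' g : Γ, ‖u (Finsupp.single (g, c') 1)‖ ^ 2) ∧
        ∀ v : Γ × R.cell →₀ ℂ, u v = w (mbd R.bdC v) := by
  classical
  obtain ⟨S, hS⟩ := R.exists_contraction ρ h
  refine ⟨∑ c, ∑ c', ‖(S c c' : H →L[ℂ] H)‖ ^ 2, by positivity, ?_⟩
  intro u hu hud
  have hs : ∀ c, Summable fun g : Γ => ‖u (Finsupp.single (g⁻¹, c) 1)‖ ^ 2 := by
    intro c
    exact (hu c).comp_injective (inv_injective (G := Γ))
  let y0 : R.cell → L2 Γ := fun c =>
    ⟨fun g => u (Finsupp.single (g⁻¹, c) 1), memL2_of (hs c)⟩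
  let y : R.cell → H := fun c => b.repr.symm (y0 c)
  have hy : ∀ c g, b.repr (y c) g = u (Finsupp.single (g⁻¹, c) 1) := by
    intro c g
    show b.repr (b.repr.symm (y0 c)) g = _
    rw [LinearIsometryEquiv.apply_symm_apply]
  have hb : ∀ (m : R.cell → H) (c : R.cell) (x : Γ),
      b.repr (∑ c', ((toCRed ρ (R.bd c c') : CRed ρ) : H →L[ℂ] H) (m c')) x =
        ∑ c', ∑ g ∈ (R.bdC c c').coeff.support,
          (R.bdC c c').coeff g * b.repr (m c') (g⁻¹ * x) := by
    intro m c x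
    rw [map_sum, lp.coeFn_sum, Finset.sum_apply]
    apply Finset.sum_congr rfl
    intro c' _
    rw [coe_toCRed, algRep_apply hρ]
    rfl
  have hDy : ∀ c, ∑ c', ((toCRed ρ (R.bd c c') : CRed ρ) : H →L[ℂ] H) (y c') = 0 := by
    intro c
    apply b.repr.injective
    ext x
    rw [hb, map_zero, lp.coeFn_zero, Pi.zero_apply]
    have h1 := hud (Finsupp.single (x⁻¹, c) 1)
    rw [mbd_single, map_sum] at h1
    rw [← h1]
    apply Finset.sum_congr rfl
    intro c' _
    rw [map_sum]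
    apply Finset.sum_congr rfl
    intro g _
    rw [map_smul, smul_eq_mul, hy, one_mul, mul_inv_rev, inv_inv]
  let z : R.cell → H := fun c => ∑ c', (S c c' : H →L[ℂ] H) (y c')
  have hz : ∀ c, z c = ∑ c', (S c c' : H →L[ℂ] H) (y c') := fun c => rfl
  clear_value z
  have hDz : ∀ c, ∑ c', ((toCRed ρ (R.bd c c') : CRed ρ) : H →L[ℂ] H) (z c') = y c := by
    intro c
    have e1 : ∀ c'', ((∑ c', S c c' * toCRed ρ (R.bd c' c'') : CRed ρ) : H →L[ℂ] H) (y c'') +
        ((∑ c', toCRed ρ (R.bd c c') * S c' c'' : CRed ρ) : H →L[ℂ] H) (y c'') =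
        if c = c'' then y c'' else 0 := by
      intro c''
      have h1 := congrArg (fun T : CRed ρ => (T : H →L[ℂ] H) (y c'')) (hS c c'')
      simp only [AddMemClass.coe_add, _root_.add_apply] at h1
      rw [h1]
      split_ifs
      · rfl
      · rfl
    have e2 := Finset.sum_congr rfl (fun c'' (_ : c'' ∈ Finset.univ) => e1 c'')
    rw [Finset.sum_add_distrib, Finset.sum_ite_eq, if_pos (Finset.mem_univ c)] at e2
    have e3 : ∑ c'', ((∑ c', S c c' * toCRed ρ (R.bd c' c'') : CRed ρ) : H →L[ℂ] H) (y c'') =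
        0 := by
      have : ∀ c'', ((∑ c', S c c' * toCRed ρ (R.bd c' c'') : CRed ρ) : H →L[ℂ] H) (y c'') =
          ∑ c', (S c c' : H →L[ℂ] H)
            (((toCRed ρ (R.bd c' c'') : CRed ρ) : H →L[ℂ] H) (y c'')) := by
        intro c''
        rw [AddSubmonoidClass.coe_finsetSum, _root_.sum_apply]
        rfl
      simp_rw [this]
      rw [Finset.sum_comm]
      apply Finset.sum_eq_zero
      intro c' _
      rw [← map_sum, hDy, map_zero]
    have e4 : ∑ c'', ((∑ c', toCRed ρ (R.bd c c') * S c' c'' : CRed ρ) : H →L[ℂ] H) (y c'') =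
        ∑ c', ((toCRed ρ (R.bd c c') : CRed ρ) : H →L[ℂ] H) (z c') := by
      have : ∀ c'', ((∑ c', toCRed ρ (R.bd c c') * S c' c'' : CRed ρ) : H →L[ℂ] H) (y c'') =
          ∑ c', ((toCRed ρ (R.bd c c') : CRed ρ) : H →L[ℂ] H)
            ((S c' c'' : H →L[ℂ] H) (y c'')) := by
        intro c''
        rw [AddSubmonoidClass.coe_finsetSum, _root_.sum_apply]
        rfl
      simp_rw [this]
      rw [Finset.sum_comm]
      apply Finset.sum_congr rfl
      intro c' _
      rw [← map_sum, hz]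
    rw [e3, e4, zero_add] at e2
    exact e2
  let w : (Γ × R.cell →₀ ℂ) →ₗ[ℂ] ℂ :=
    Finsupp.linearCombination ℂ (fun p : Γ × R.cell => b.repr (z p.2) p.1⁻¹)
  have hw : ∀ x c, w (Finsupp.single (x, c) 1) = b.repr (z c) x⁻¹ := by
    intro x c
    simp [w]
  have hny : ∀ c, ‖y c‖ ^ 2 = ∑' g : Γ, ‖u (Finsupp.single (g, c) 1)‖ ^ 2 := by
    intro c
    rw [← b.repr.norm_map, norm_sq_L2, ← (Equiv.inv Γ).tsum_eq
      (fun g : Γ => ‖u (Finsupp.single (g, c) 1)‖ ^ 2)]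
    apply tsum_congr
    intro g
    rw [hy]
    rfl
  have hnz : ∀ c, ‖z c‖ ^ 2 = ∑' g : Γ, ‖w (Finsupp.single (g, c) 1)‖ ^ 2 := by
    intro c
    rw [← b.repr.norm_map, norm_sq_L2, ← (Equiv.inv Γ).tsum_eq
      (fun g : Γ => ‖w (Finsupp.single (g, c) 1)‖ ^ 2)]
    apply tsum_congr
    intro g
    rw [Equiv.inv_apply, hw, inv_inv]
  refine ⟨w, ?_, ?_⟩
  · intro c
    refine ⟨?_, ?_⟩
    · simp only [hw]
      exact (summable_L2 (b.repr (z c))).comp_injective (inv_injective (G := Γ))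
    · rw [← hnz]
      simp_rw [← hny]
      have h1 : ‖z c‖ ≤ ∑ c', ‖(S c c' : H →L[ℂ] H)‖ * ‖y c'‖ := by
        rw [hz]
        exact (norm_sum_le _ _).trans (Finset.sum_le_sum fun c' _ =>
          (S c c' : H →L[ℂ] H).le_opNorm _)
      have h2 : ‖z c‖ ^ 2 ≤ (∑ c', ‖(S c c' : H →L[ℂ] H)‖ * ‖y c'‖) ^ 2 :=
        pow_le_pow_left₀ (norm_nonneg _) h1 2
      refine h2.trans ((Finset.sum_mul_sq_le_sq_mul_sq _ _ _).trans ?_)
      apply mul_le_mul_of_nonneg_right _ (by positivity)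
      exact Finset.single_le_sum (f := fun c => ∑ c', ‖(S c c' : H →L[ℂ] H)‖ ^ 2)
        (fun _ _ => by positivity) (Finset.mem_univ c)
  · have key : u = w ∘ₗ mbd R.bdC := by
      apply Finsupp.lhom_ext'
      rintro ⟨x, c⟩
      ext
      simp only [coe_comp, Function.comp_apply, Finsupp.lsingle_apply]
      rw [mbd_single, map_sum]
      have h1 := congrArg (fun f : H => b.repr f x⁻¹) (hDz c)
      simp only [hb, hy, inv_inv] at h1
      rw [← h1]
      apply Finset.sum_congr rfl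
      intro c' _
      rw [map_sum]
      apply Finset.sum_congr rfl
      intro g _
      rw [map_smul, hw, smul_eq_mul, one_mul, mul_inv_rev]
    intro v
    exact congrArg (fun T => T v) key

end hilb

end FreeRes

end Pool.Agent.Lib.P9f173d
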