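import Pool.Agent.Lib.P9f173d.Main

/-!
A variant of `CData.contra`, `CData.core` and `main_data`: the homology is nonzero in some degree if
the alternating sum of the inverses of the growth polynomials of the labels is not identically zero.
-/

namespace Pool.Agent.Lib.P9f173d

open CoxeterSystem Polynomial Filter Topology

namespace CData

variable {B W G ι : Type*} [Group W] [Group G] [MulAction G B] [Fintype ι]
  {D : HData B W G ι} (E : CData D)

open Classical in
/-- The first two coefficients at infinity. -/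
theorem limitsR (hpr : ∀ b, D.pr b = 1)
    (key : ∀ z : ℝ, 0 < z → ∑ c, (-1 : ℝ) ^ E.deg c * ((D.gp c).eval z)⁻¹ = 0) :
    ∑ c, (-1 : ℝ) ^ E.deg c * (if D.T c = ∅ then 1 else 0) = 0 ∧
      ∑ c, (-1 : ℝ) ^ E.deg c * (if ∃ b, D.T c = {b} then 1 else 0) = 0 := by
  -- first limit
  have lim1 : ∀ c, D.T c ≠ ∅ → Tendsto (fun z : ℝ => ((D.gp c).eval z)⁻¹) atTop (𝓝 0) := by
    intro c hc
    obtain ⟨b, hb⟩ := Set.nonempty_iff_ne_empty.mpr hc
    have hb' := simple_mem_WT D.cs hb
    have hub : Tendsto (fun z : ℝ => D.pr b * z⁻¹) atTop (𝓝 0) := by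
      have := (tendsto_inv_atTop_zero (𝕜 := ℝ)).const_mul (D.pr b)
      simpa using this
    refine squeeze_zero' ?_ ?_ hub
    · filter_upwards [eventually_gt_atTop 0] with z hz
      exact inv_nonneg.mpr (D.gp_pos hz c).le
    · filter_upwards [eventually_gt_atTop 0] with z hz
      have h := D.gp_ge hz c hb'
      rw [D.wt_simple, D.cs.length_simple, pow_one] at h
      have hp := D.pr_pos b
      have h3 : 0 < (D.pr b)⁻¹ * z := by positivity
      calc ((D.gp c).eval z)⁻¹ ≤ ((D.pr b)⁻¹ * z)⁻¹ := inv_anti₀ h3 h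
        _ = D.pr b * z⁻¹ := by rw [mul_inv, inv_inv]
  have lim2 : ∀ c, D.T c ≠ ∅ → (∀ b, D.T c ≠ {b}) →
      Tendsto (fun z : ℝ => z * ((D.gp c).eval z)⁻¹) atTop (𝓝 0) := by
    intro c hc hc'
    obtain ⟨b, hb⟩ := Set.nonempty_iff_ne_empty.mpr hc
    obtain ⟨b', hb', hne⟩ : ∃ b' ∈ D.T c, b' ≠ b := by
      by_contra hcon
      push Not at hcon
      exact hc' b (Set.eq_singleton_iff_unique_mem.mpr ⟨hb, hcon⟩)
    have hm : D.cs.simple b * D.cs.simple b' ∈ WT D.cs (D.T c) :=
      mul_mem (simple_mem_WT D.cs hb) (simple_mem_WT D.cs hb')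
    have hl : D.cs.length (D.cs.simple b * D.cs.simple b') = 2 := by
      rcases D.cs.length_mul_simple (D.cs.simple b) b' with h | h
      · rw [h, D.cs.length_simple]
      · exfalso
        rw [D.cs.length_simple] at h
        have h0 : D.cs.length (D.cs.simple b * D.cs.simple b') = 0 := by omega
        rw [D.cs.length_eq_zero_iff] at h0
        apply hne
        apply simple_injective D.cs
        have := congrArg (fun w => D.cs.simple b * w) h0
        simpa using this
    set q := D.wt (D.cs.simple b * D.cs.simple b') with hq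
    have hqp : 0 < q := D.wt_pos _
    have hub : Tendsto (fun z : ℝ => q * z⁻¹) atTop (𝓝 0) := by
      have := (tendsto_inv_atTop_zero (𝕜 := ℝ)).const_mul q
      simpa using this
    refine squeeze_zero' ?_ ?_ hub
    · filter_upwards [eventually_gt_atTop 0] with z hz
      exact mul_nonneg hz.le (inv_nonneg.mpr (D.gp_pos hz c).le)
    · filter_upwards [eventually_gt_atTop 0] with z hz
      have h := D.gp_ge hz c hm
      rw [hl, ← hq] at h
      have h3 : 0 < q⁻¹ * z ^ 2 := by positivity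
      calc z * ((D.gp c).eval z)⁻¹ ≤ z * (q⁻¹ * z ^ 2)⁻¹ :=
            mul_le_mul_of_nonneg_left (inv_anti₀ h3 h) hz.le
        _ = q * z⁻¹ := by field_simp
  have lim3 : ∀ c b, D.T c = {b} →
      Tendsto (fun z : ℝ => z * ((D.gp c).eval z)⁻¹) atTop (𝓝 (D.pr b)) := by
    intro c b hb
    have hp := D.pr_pos b
    have e : ∀ᶠ z : ℝ in atTop, (z⁻¹ + (D.pr b)⁻¹)⁻¹ = z * ((D.gp c).eval z)⁻¹ := by
      filter_upwards [eventually_gt_atTop 0] with z hz
      rw [D.gp_singleton c hb]
      field_simp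
    apply Tendsto.congr' e
    have h1 : Tendsto (fun z : ℝ => z⁻¹ + (D.pr b)⁻¹) atTop (𝓝 (0 + (D.pr b)⁻¹)) :=
      tendsto_inv_atTop_zero.add_const _
    rw [zero_add] at h1
    have h2 := h1.inv₀ (inv_ne_zero hp.ne')
    rwa [inv_inv] at h2
  -- sum over the empty labels
  set A : ℝ := ∑ c ∈ Finset.univ.filter (fun c => D.T c = ∅), (-1 : ℝ) ^ E.deg c with hA
  have split : ∀ z : ℝ, 0 < z → A + ∑ c ∈ Finset.univ.filter (fun c => ¬ D.T c = ∅),
      (-1 : ℝ) ^ E.deg c * ((D.gp c).eval z)⁻¹ = 0 := by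
    intro z hz
    rw [← key z hz, ← Finset.sum_filter_add_sum_filter_not Finset.univ (fun c => D.T c = ∅)]
    congr 1
    rw [hA]
    apply Finset.sum_congr rfl
    intro c hc
    rw [Finset.mem_filter] at hc
    rw [D.gp_empty c hc.2]
    simp
  have hA0 : A = 0 := by
    have t1 : Tendsto (fun z : ℝ => A + ∑ c ∈ Finset.univ.filter (fun c => ¬ D.T c = ∅),
      (-1 : ℝ) ^ E.deg c * ((D.gp c).eval z)⁻¹) atTop
        (𝓝 (A + ∑ c ∈ Finset.univ.filter (fun c => ¬ D.T c = ∅), (-1 : ℝ) ^ E.deg c * 0)) := by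
      apply tendsto_const_nhds.add
      apply tendsto_finsetSum
      intro c hc
      rw [Finset.mem_filter] at hc
      exact (lim1 c hc.2).const_mul _
    simp only [mul_zero, Finset.sum_const_zero, add_zero] at t1
    have t2 : Tendsto (fun z : ℝ => A + ∑ c ∈ Finset.univ.filter (fun c => ¬ D.T c = ∅),
      (-1 : ℝ) ^ E.deg c * ((D.gp c).eval z)⁻¹) atTop (𝓝 0) := by
      refine Tendsto.congr' ?_ tendsto_const_nhds
      filter_upwards [eventually_gt_atTop 0] with z hz
      rw [split z hz]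
    exact tendsto_nhds_unique t1 t2
  -- second limit
  set w : ι → ℝ := fun c => if h : ∃ b, D.T c = {b} then D.pr h.choose else 0 with hw
  have hw1 : ∀ c b, D.T c = {b} → w c = D.pr b := by
    intro c b hb
    have hex : ∃ b, D.T c = {b} := ⟨b, hb⟩
    have : w c = D.pr hex.choose := by simp only [hw]; rw [dif_pos hex]
    rw [this]
    congr 1
    exact (Set.singleton_injective (hb.symm.trans hex.choose_spec)).symm
  have t1 : Tendsto (fun z : ℝ => z * ∑ c ∈ Finset.univ.filter (fun c => ¬ D.T c = ∅),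
      (-1 : ℝ) ^ E.deg c * ((D.gp c).eval z)⁻¹) atTop
      (𝓝 (∑ c ∈ Finset.univ.filter (fun c => ¬ D.T c = ∅), (-1 : ℝ) ^ E.deg c * w c)) := by
    simp_rw [Finset.mul_sum]
    apply tendsto_finsetSum
    intro c hc
    rw [Finset.mem_filter] at hc
    by_cases hex : ∃ b, D.T c = {b}
    · obtain ⟨b, hb⟩ := hex
      have := (lim3 c b hb).const_mul ((-1 : ℝ) ^ E.deg c)
      rw [hw1 c b hb]
      refine this.congr ?_
      intro z
      ring
    · have h0 : w c = 0 := by simp only [hw]; rw [dif_neg hex]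
      push Not at hex
      have := (lim2 c hc.2 hex).const_mul ((-1 : ℝ) ^ E.deg c)
      rw [h0]
      refine this.congr ?_
      intro z
      ring
  have t2 : Tendsto (fun z : ℝ => z * ∑ c ∈ Finset.univ.filter (fun c => ¬ D.T c = ∅),
      (-1 : ℝ) ^ E.deg c * ((D.gp c).eval z)⁻¹) atTop (𝓝 0) := by
    refine Tendsto.congr' ?_ tendsto_const_nhds
    filter_upwards [eventually_gt_atTop 0] with z hz
    have := split z hz
    rw [hA0, zero_add] at this
    rw [this, mul_zero]
  have hfin := tendsto_nhds_unique t1 t2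
  refine ⟨Eq.trans ?_ hA0, Eq.trans ?_ hfin⟩
  · rw [hA, Finset.sum_filter]
    apply Finset.sum_congr rfl
    intro c _
    split_ifs
    · rw [mul_one]
    · rw [mul_zero]
  · rw [Finset.sum_filter]
    apply Finset.sum_congr rfl
    intro c _
    by_cases hex : ∃ b, D.T c = {b}
    · obtain ⟨b, hb⟩ := hex
      rw [if_pos ⟨b, hb⟩, if_pos (by rw [hb]; exact Set.singleton_ne_empty b), hw1 c b hb, hpr]
    · have h0 : w c = 0 := by simp only [hw]; rw [dif_neg hex]
      rw [if_neg hex, h0, mul_zero]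
      split_ifs <;> rfl

/-- The analytic core. -/
theorem coreR [DecidableEq ι]
    (hex : ∀ y, D.Pr 1 y = y → D.Pr 1 (E.dop.adjoint y) = 0 →
      ∃ z, D.Pr 1 (E.dop.adjoint z) = y)
    (z : ℝ) (hz : 0 < z) : ∑ c, (-1 : ℝ) ^ E.deg c * ((D.gp c).eval z)⁻¹ = 0 := by
  refine E.rational_identity ?_ z hz
  have hU := E.Lop_isUnit one_pos hex
  filter_upwards [E.eventually_isUnit one_pos hU, lt_mem_nhds one_pos] with t ht1 ht2
  exact E.supertrace ht2 ht1

end CData

end Pool.Agent.Lib.P9f173d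

namespace Pool.Agent.Lib.P9f173d

open CoxeterSystem LinearMap

section

variable {B W G ι : Type*} [Group W] [Group G] [MulAction G B] [Fintype ι]
  {D : HData B W G ι} {E : CData D}

open Classical in
/-- The main theorem in terms of the data of an extended complex. -/
theorem main_dataR (hwt : ∀ w, D.wt w = 1) (A : AData E)
    (hne : ¬ ∀ z : ℝ, 0 < z → ∑ c, (-1 : ℝ) ^ E.deg c * ((D.gp c).eval z)⁻¹ = 0)
    {Γ : Type*} [Group Γ] (R : FreeRes Γ) {Δ : Type*} [Group Δ]
    (α : Δ →* D.X) (hα : Function.Injective α) [α.range.FiniteIndex]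
    (β : Δ →* Γ) (hβ : Function.Injective β) [β.range.FiniteIndex]
    {H : Type*} [NormedAddCommGroup H] [InnerProductSpace ℂ H] [CompleteSpace H]
    (b : HilbertBasis Γ ℂ H) (ρ : Γ →* (H →L[ℂ] H)) (hρ : ∀ g h, ρ g (b h) = b (g * h)) :
    ∃ i, Nontrivial (R.HRed ρ i) := by
  by_contra hcon
  push Not at hcon
  have hH : HHExact (R.toCx β) := R.hhExact_restrict hρ hcon β hβ
  have hD : HHExact (dCx E A α) :=
    HHExact.transfer (R.toCx_proj β hβ) (dCx_proj E A α hα) (R.toCx_exact β)
      (dCx_exact E A α) hH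
  have hD' := hhExact_unfold E A α hD
  exact hne (fun z hz => E.coreR (fun y hy1 hy2 => hex_aux E hwt α hα hD' y hy1 hy2) z hz)

end

end Pool.Agent.Lib.P9f173d
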