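import Pool.Agent.Lib.P9f173dR.Base
import Pool.Agent.Lib.P9f173dR.Contra

/-!
Vanishing homology of a group passes to every group in which it is commensurated up to
commensurability; the main theorem for subgroups whose commensurator has finite index.
-/

namespace Pool.Agent.Lib.P9f173dR

open Pool.Agent.Lib.P9f173d LinearMap

open scoped Pointwise

section transfer

variable {Γ : Type*} [Group Γ] {V : Type*} [AddCommGroup V] [Module ℂ V]
  {σ : Representation ℂ Γ V}

theorem CEx.transfer {C D : Cx Γ} (pC : Proj C.ρ) (pD : Proj D.ρ) (eC : C.Exact)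
    (eD : D.Exact) (h : CEx C.ρ C.d σ) : CEx D.ρ D.d σ := by
  obtain ⟨f, f1, f2, f3, f4⟩ := Cx.exists_chain_map (C := C) (D := D) pC eD
  obtain ⟨g, g1, g2, g3, g4⟩ := Cx.exists_chain_map (C := D) (D := C) pD eC
  obtain ⟨k, k1, k2⟩ := Cx.exists_homotopy (C := D) (D := D) pD eD (φ := f ∘ₗ g - LinearMap.id)
    (by
      intro γ m
      simp only [LinearMap.sub_apply, comp_apply, id_apply]
      rw [g1, f1, map_sub])
    (by
      intro v
      simp only [LinearMap.sub_apply, comp_apply, id_apply]
      rw [map_sub, f2, g2])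
    (by
      intro v
      simp only [LinearMap.sub_apply, comp_apply, id_apply]
      rw [map_sub, f3, g3, sub_self])
    (by
      intro j v
      simp only [LinearMap.sub_apply, comp_apply, id_apply]
      rw [map_sub, g4, f4])
  intro u hu hud
  obtain ⟨w, hw1, hw2⟩ := h (u ∘ₗ f) (by
    intro γ m
    rw [comp_apply, comp_apply, f1, hu]) (by
    intro v
    rw [comp_apply, ← f2, hud])
  refine ⟨w ∘ₗ g - u ∘ₗ k, ?_, ?_⟩
  · intro γ m
    rw [LinearMap.sub_apply, LinearMap.sub_apply, comp_apply, comp_apply, comp_apply, comp_apply,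
      g1, hw1, k1, hu, map_sub]
  · intro v
    have e1 := k2 v
    simp only [LinearMap.sub_apply, comp_apply, id_apply] at e1
    have e2 := congrArg u e1
    rw [map_add, hud, zero_add, map_sub] at e2
    have e3 := hw2 (g v)
    rw [comp_apply] at e3
    rw [LinearMap.sub_apply, comp_apply, comp_apply, e2, e3, g2]
    abel

end transfer

section avg

variable {S Δ : Type*} [Group S] [Group Δ] {M V : Type*} [AddCommGroup M] [Module ℂ M]
  [AddCommGroup V] [Module ℂ V] {ρ : Representation ℂ S M} {σ : Representation ℂ S V}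
  {d : M →ₗ[ℂ] M}

/-- Averaging over a subgroup of finite index. -/
theorem CEx.average (hd : ∀ g m, d (ρ g m) = ρ g (d m)) (j : Δ →* S) [j.range.FiniteIndex]
    (h : CEx (rrep ρ j) d (rrep σ j)) : CEx ρ d σ := by
  classical
  intro f hf hfd
  obtain ⟨H, H1, H2⟩ := h f (fun γ m => hf (j γ) m) hfd
  have hσ : ∀ (u v : S) (w : V), σ (u * v) w = σ u (σ v w) := by
    intro u v w
    rw [map_mul]; rfl
  have hρ : ∀ (u v : S) (w : M), ρ (u * v) w = ρ u (ρ v w) := by
    intro u v w
    rw [map_mul]; rfl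
  have hσ1 : ∀ w : V, σ 1 w = w := by
    intro w
    rw [map_one]; rfl
  have hfin : Finite (S ⧸ j.range) := inferInstance
  have : Fintype (S ⧸ j.range) := Fintype.ofFinite _
  let φ : S ⧸ j.range → M →ₗ[ℂ] V := fun q => σ q.out ∘ₗ H ∘ₗ ρ (q.out)⁻¹
  have hφ : ∀ (g : S) m, φ (QuotientGroup.mk g) m = σ g (H (ρ g⁻¹ m)) := by
    intro g m
    have e0 : φ (QuotientGroup.mk g) m = σ (QuotientGroup.mk (s := j.range) g).out
      (H (ρ (QuotientGroup.mk (s := j.range) g).out⁻¹ m)) := rfl
    rw [e0]
    obtain ⟨⟨_, ⟨t, rfl⟩⟩, ht⟩ := QuotientGroup.mk_out_eq_mul j.range g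
    have e1 : H (ρ (j t)⁻¹ (ρ g⁻¹ m)) = σ (j t)⁻¹ (H (ρ g⁻¹ m)) := by
      have := H1 t⁻¹ (ρ g⁻¹ m)
      rw [rrep_apply, rrep_apply, map_inv] at this
      exact this
    simp only at ht
    rw [ht, mul_inv_rev, hρ, e1, ← hσ]
    congr 2
    group
  set n : ℂ := (Fintype.card (S ⧸ j.range) : ℂ) with hn
  have hn0 : n ≠ 0 := by
    rw [hn]
    exact_mod_cast Fintype.card_ne_zero
  refine ⟨n⁻¹ • ∑ q, φ q, ?_, ?_⟩
  · intro g m
    rw [LinearMap.smul_apply, LinearMap.smul_apply, LinearMap.sum_apply, LinearMap.sum_apply,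
      map_smul, map_sum]
    congr 1
    rw [← Equiv.sum_comp (MulAction.toPerm g : Equiv.Perm (S ⧸ j.range))]
    apply Finset.sum_congr rfl
    intro q _
    obtain ⟨x, rfl⟩ := QuotientGroup.mk_surjective q
    have e : (MulAction.toPerm g : Equiv.Perm (S ⧸ j.range)) (QuotientGroup.mk x) =
      QuotientGroup.mk (g * x) := rfl
    rw [e, hφ, hφ, ← hσ, ← hρ]
    congr 3
    group
  · intro m
    rw [LinearMap.smul_apply, LinearMap.sum_apply]
    have e1 : ∀ q, φ q (d m) = f m := by
      intro q
      obtain ⟨x, rfl⟩ := QuotientGroup.mk_surjective q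
      rw [hφ, ← hd, ← H2, hf, ← hσ, mul_inv_cancel, hσ1]
    rw [Finset.sum_congr rfl (fun q _ => e1 q), Finset.sum_const, Finset.card_univ,
      ← Nat.cast_smul_eq_nsmul ℂ, smul_smul, ← hn, inv_mul_cancel₀ hn0, one_smul]

end avg

section reg

variable {P : Type*} [Group P]

/-- Left multiplication. -/
def lreg (P : Type*) [Group P] : P →* Equiv.Perm P := MulAction.toPermHom P P

theorem lreg_apply (g x : P) : lreg P g x = g * x := rfl

/-- Exactness with coefficients in the regular representation gives exactness on square-summable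
functionals. -/
theorem hhExact_of_cEx (C : Cx P) (h : CEx C.ρ C.d (sqR (lreg P))) : HHExact C := by
  intro u hu hud
  have hsum : ∀ m, Summable fun x : P => ‖u (C.ρ x⁻¹ m)‖ ^ 2 := by
    intro m
    exact (hu m).comp_injective (inv_injective (G := P))
  let f : C.V →ₗ[ℂ] sqS P :=
    { toFun := fun m => ⟨fun x => u (C.ρ x⁻¹ m), hsum m⟩
      map_add' := by
        intro m m'
        ext x
        simp only [map_add, Submodule.coe_add, Pi.add_apply]
      map_smul' := by
        intro r m
        ext x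
        simp only [map_smul, Submodule.coe_smul, Pi.smul_apply, RingHom.id_apply] }
  have hfa : ∀ m x, (f m : P → ℂ) x = u (C.ρ x⁻¹ m) := fun m x => rfl
  obtain ⟨h', h1, h2⟩ := h f (by
    intro g m
    apply Subtype.ext
    funext x
    rw [sqR_apply, hfa, hfa, lreg_apply]
    have e : C.ρ x⁻¹ (C.ρ g m) = C.ρ (x⁻¹ * g) m := by
      rw [map_mul]; rfl
    rw [e]
    congr 2
    group) (by
    intro m
    apply Subtype.ext
    funext x
    rw [hfa, ← C.ρ_d, hud]
    rfl)
  refine ⟨(LinearMap.proj (1 : P) : (P → ℂ) →ₗ[ℂ] ℂ) ∘ₗ (sqS P).subtype ∘ₗ h', ?_, ?_⟩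
  · intro m
    have e : ∀ x : P, ((LinearMap.proj (1 : P) : (P → ℂ) →ₗ[ℂ] ℂ) ∘ₗ (sqS P).subtype ∘ₗ h')
        (C.ρ x m) = (h' m : P → ℂ) x⁻¹ := by
      intro x
      have e1 := congrArg (fun φ : sqS P => (φ : P → ℂ) 1) (h1 x m)
      simp only [sqR_apply, lreg_apply, mul_one] at e1
      exact e1
    simp_rw [e]
    exact (sqS_summable (h' m)).comp_injective (inv_injective (G := P))
  · intro m
    have e1 := congrArg (fun φ : sqS P => (φ : P → ℂ) 1) (h2 m)
    simp only [hfa, inv_one, map_one, Module.End.one_apply] at e1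
    exact e1

end reg

section comm

variable {X : Type*} [Group X]

theorem conj_subgroupOf (P H : Subgroup X) (x : P) :
    (ConjAct.toConjAct x • H.subgroupOf P : Subgroup P) =
      (ConjAct.toConjAct (x : X) • H : Subgroup X).subgroupOf P := by
  ext g
  rw [Subgroup.mem_pointwise_smul_iff_inv_smul_mem, Subgroup.mem_subgroupOf,
    Subgroup.mem_subgroupOf, Subgroup.mem_pointwise_smul_iff_inv_smul_mem,
    ← ConjAct.toConjAct_inv, ConjAct.toConjAct_smul, ← ConjAct.toConjAct_inv,
    ConjAct.toConjAct_smul]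
  simp

theorem le_commensurator (H : Subgroup X) : H ≤ Subgroup.Commensurable.commensurator H := by
  intro g hg
  rw [Subgroup.Commensurable.commensurator_mem_iff]
  have : (ConjAct.toConjAct g • H : Subgroup X) = H := by
    ext y
    rw [Subgroup.mem_pointwise_smul_iff_inv_smul_mem, ← ConjAct.toConjAct_inv,
      ConjAct.toConjAct_smul, inv_inv]
    constructor
    · intro h
      have := H.mul_mem (H.mul_mem hg h) (H.inv_mem hg)
      convert this using 1
      group
    · intro h
      exact H.mul_mem (H.mul_mem (H.inv_mem hg) h) hg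
  rw [this]

theorem comm_conj (H : Subgroup X) (x : Subgroup.Commensurable.commensurator H) :
    Subgroup.Commensurable
      (ConjAct.toConjAct x • H.subgroupOf (Subgroup.Commensurable.commensurator H))
      (H.subgroupOf (Subgroup.Commensurable.commensurator H)) := by
  rw [conj_subgroupOf]
  have hx := (Subgroup.Commensurable.commensurator_mem_iff H x).mp x.2
  have h1 := le_commensurator H
  have h2 : (ConjAct.toConjAct (x : X) • H : Subgroup X) ≤
      Subgroup.Commensurable.commensurator H := by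
    intro g hg
    rw [Subgroup.mem_pointwise_smul_iff_inv_smul_mem, ← ConjAct.toConjAct_inv,
      ConjAct.toConjAct_smul, inv_inv] at hg
    have := Subgroup.mul_mem _ (Subgroup.mul_mem _ x.2 (h1 hg)) (Subgroup.inv_mem _ x.2)
    convert this using 1
    group
  refine ⟨?_, ?_⟩
  · rw [Subgroup.relIndex_subgroupOf h1]
    exact hx.1
  · rw [Subgroup.relIndex_subgroupOf h2]
    exact hx.2

end comm

end Pool.Agent.Lib.P9f173dR
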