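import Pool.Agent.Lib.P9f173d.Ext

/-!
Labelled complexes over a group ring, for groups acting on a Coxeter system with stabilisers.

`LCx B G 𝒢` is a finite complex of free `ℂ[G]`-modules whose cells carry labels in `𝒢 ∪ {∅}`,
which is exact below every member of `𝒢` and a resolution of `ℂ` on the cells with empty label.
-/

namespace Pool.Agent.Lib.P9f173dR

open Pool.Agent.Lib.P9f173d

section plain

variable {J : Type*}

/-- `x` is supported on `P`. -/
def SOn (P : J → Prop) (x : J →₀ ℂ) : Prop := ∀ j, x j ≠ 0 → P j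

/-- Cycles supported on `P` bound on `P`. -/
def ExP (d : (J →₀ ℂ) →ₗ[ℂ] (J →₀ ℂ)) (P : J → Prop) : Prop :=
  ∀ x, SOn P x → d x = 0 → ∃ y, SOn P y ∧ d y = x

/-- The homology of the cells in `P` is one-dimensional, in degree `m`. -/
def H1 (d : (J →₀ ℂ) →ₗ[ℂ] (J →₀ ℂ)) (deg : J → ℕ) (P : J → Prop) (m : ℕ) : Prop :=
  ∃ z, SOn P z ∧ (∀ j, z j ≠ 0 → deg j = m) ∧ d z = 0 ∧ (¬ ∃ y, SOn P y ∧ d y = z) ∧
    ∀ x, SOn P x → d x = 0 → ∃ (r : ℂ) (y : J →₀ ℂ), SOn P y ∧ x = r • z + d y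

end plain

/-- The setwise stabiliser of a set `T`. -/
def stS {B : Type*} (G : Type*) [Group G] [MulAction G B] (T : Set B) : Subgroup G where
  carrier := {g | imT g T = T}
  mul_mem' := by
    intro g h hg hh
    show imT (g * h) T = T
    rw [imT_mul]
    rw [show imT h T = T from hh]
    exact hg
  one_mem' := imT_one T
  inv_mem' := by
    intro g hg
    show imT g⁻¹ T = T
    conv_lhs => rw [← (show imT g T = T from hg)]
    exact imT_inv_imT g T

/-- A labelled complex over `ℂ[G]`. -/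
structure LCx (B G : Type*) [Group G] [MulAction G B] (𝒢 : Set (Set B)) where
  /-- the cells -/
  ι : Type
  [fin : Fintype ι]
  /-- the labels -/
  T : ι → Set B
  /-- the degrees -/
  deg : ι → ℕ
  /-- the boundary matrix -/
  coef : ι → ι → MonoidAlgebra ℂ G
  /-- the augmentation -/
  a : ι → ℂ
  T_mem : ∀ c, T c = ∅ ∨ T c ∈ 𝒢
  label : ∀ c c' g, (coef c c').coeff g ≠ 0 → imT g (T c') ⊆ T c
  deg_coef : ∀ c c', coef c c' ≠ 0 → deg c = deg c' + 1
  sq : ∀ c c'', ∑ c', coef c c' * coef c' c'' = 0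
  a_deg : ∀ c, a c ≠ 0 → deg c = 0
  a_bd : ∀ c, T c = ∅ → ∑ c', eps (coef c c') * a c' = 0
  a_one : ∃ F : G × ι →₀ ℂ, (∀ p, F p ≠ 0 → T p.2 = ∅) ∧ augm a F = 1
  ex : ∀ S ∈ 𝒢, ExP (mbd coef) (fun p : G × ι => imT p.1 (T p.2) ⊆ S)
  ex0 : ∀ x : G × ι →₀ ℂ, (∀ y, x y ≠ 0 → T y.2 = ∅) → mbd coef x = 0 → augm a x = 0 →
      ∃ z : G × ι →₀ ℂ, (∀ y, z y ≠ 0 → T y.2 = ∅) ∧ mbd coef z = x

attribute [instance] LCx.fin

namespace LCx

variable {B G : Type*} [Group G] [MulAction G B] {𝒢 : Set (Set B)} (K : LCx B G 𝒢)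

/-- The label of a translated cell. -/
def lab (p : G × K.ι) : Set B := imT p.1 (K.T p.2)

/-- The alternating sum of the values of a function on the labels. -/
noncomputable def wsum (f : Set B → ℝ) : ℝ := ∑ c, (-1 : ℝ) ^ K.deg c * f (K.T c)

end LCx

/-- The output of the comparison theorem: an equivariant degree-shifting map from a resolution of
the stabiliser of `T₀` (twisted by a character `χ`) to the part of `K` strictly below `T₀`, whose
cone is exact. -/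
structure Att {B G : Type*} [Group G] [MulAction G B] {𝒢 : Set (Set B)} (K : LCx B G 𝒢)
    (T₀ : Set B) (F : FreeRes (stS G T₀)) where
  /-- the character -/
  χ : stS G T₀ →* ℂ
  /-- the map -/
  Ψ : (stS G T₀ × F.cell →₀ ℂ) →ₗ[ℂ] (G × K.ι →₀ ℂ)
  supp : ∀ u, SOn (fun p => K.lab p ⊂ T₀) (Ψ u)
  eqv : ∀ (h : stS G T₀) u, prep (lact G K.ι) (h : G) (Ψ u) =
    χ h • Ψ (prep (lact (stS G T₀) F.cell) h u)
  hd : ∀ u, mbd K.coef (Ψ u) = -Ψ (mbd F.bdC u)
  gr : ∀ k u, Ψ (gpr F.dim k u) = gpr K.deg (k + (T₀.ncard - 1)) (Ψ u)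
  cone : ∀ (a : G × K.ι →₀ ℂ) (u : stS G T₀ × F.cell →₀ ℂ), SOn (fun p => K.lab p ⊂ T₀) a →
    mbd K.coef a + Ψ u = 0 → mbd F.bdC u = 0 →
      ∃ a' u', SOn (fun p => K.lab p ⊂ T₀) a' ∧ mbd K.coef a' + Ψ u' = a ∧ mbd F.bdC u' = u

end Pool.Agent.Lib.P9f173dR
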