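import Pool.Agent.Lib.P9f173dR.Comm

/-!
The main theorem in terms of the data of an extended complex, for subgroups whose commensurator
has finite index.
-/

namespace Pool.Agent.Lib.P9f173dR

open Pool.Agent.Lib.P9f173d LinearMap CoxeterSystem

open scoped Pointwise

theorem sqR_comp {Δ P X : Type*} [Group Δ] [Group P] (a : P →* Equiv.Perm X) (j : Δ →* P) :
    sqR (a.comp j) = rrep (sqR a) j := by
  ext g φ x
  rw [sqR_apply, rrep_apply, sqR_apply, MonoidHom.comp_apply, map_inv]

section

variable {B W G ι : Type*} [Group W] [Group G] [MulAction G B] [Fintype ι] [DecidableEq ι]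
  {D : HData B W G ι} (E : CData D)

theorem good_sq (A : AData E) {Γ : Type*} [Group Γ] (R : FreeRes Γ) {Δ : Type*} [Group Δ]
    (P : Subgroup D.X) (α : Δ →* P) (hα : Function.Injective α)
    (β : Δ →* Γ) (hβ : Function.Injective β) [β.range.FiniteIndex]
    {H : Type*} [NormedAddCommGroup H] [InnerProductSpace ℂ H] [CompleteSpace H]
    {b : HilbertBasis Γ ℂ H} {ρ : Γ →* (H →L[ℂ] H)} (hρ : ∀ g h, ρ g (b h) = b (g * h))
    (hcon : ∀ i, Subsingleton (R.HRed ρ i)) :
    Good (dCx E A P.subtype).ρ (dCx E A P.subtype).d α.range (sqR (lreg P)) := by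
  intro S hS
  -- the subgroup of finite index of `Δ`
  let Δ' : Subgroup Δ := S.comap α
  have hΔ' : Δ'.FiniteIndex := by
    refine ⟨?_⟩
    rw [Subgroup.index_comap]
    exact hS.1
  let β' : Δ' →* Γ := β.comp Δ'.subtype
  have hβ' : Function.Injective β' := hβ.comp Subtype.val_injective
  have hfi : β'.range.FiniteIndex := by
    refine ⟨?_⟩
    have e : β'.range = Δ'.map β := by
      rw [MonoidHom.range_comp, Subgroup.range_subtype]
    rw [e, Subgroup.index_map, (MonoidHom.ker_eq_bot_iff β).mpr hβ, sup_bot_eq]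
    exact mul_ne_zero hΔ'.index_ne_zero (Subgroup.FiniteIndex.index_ne_zero)
  let α' : Δ' →* P := α.comp Δ'.subtype
  have hα' : Function.Injective α' := hα.comp Subtype.val_injective
  have h1 := base_exact R hρ hcon β' hβ' ((lreg P).comp α') (by
    intro γ y h
    have h2 : α' γ * y = y := h
    have h3 : α' γ = 1 := by simpa using h2
    exact hα' (by rw [h3, map_one]))
  have h2 : CEx (dCx E A (P.subtype.comp α')).ρ (dCx E A (P.subtype.comp α')).d
      (sqR ((lreg P).comp α')) :=
    CEx.transfer (R.toCx_proj β' hβ') (dCx_proj E A _ (Subtype.val_injective.comp hα'))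
      (R.toCx_exact β') (dCx_exact E A _) h1
  rw [sqR_comp] at h2
  let j : Δ' →* S :=
    { toFun := fun x => ⟨α' x, x.2⟩
      map_one' := by ext1; simp
      map_mul' := by intro x y; ext1; simp }
  have hj : j.range.FiniteIndex := by
    refine ⟨?_⟩
    have e : j.range = α.range.subgroupOf S := by
      ext x
      rw [Subgroup.mem_subgroupOf]
      constructor
      · rintro ⟨y, rfl⟩
        exact ⟨(y : Δ), rfl⟩
      · rintro ⟨y, hy⟩
        refine ⟨⟨y, ?_⟩, ?_⟩
        · show α y ∈ S
          rw [hy]
          exact x.2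
        · ext1
          exact hy
    rw [e]
    exact hS.2
  exact CEx.average (fun g m => (dCx E A P.subtype).ρ_d (g : P) m) j h2

open Classical in
/-- The main theorem in terms of the data of an extended complex. -/
theorem main_dataC (hwt : ∀ w, D.wt w = 1) (A : AData E)
    (hne : ¬ ∀ z : ℝ, 0 < z → ∑ c, (-1 : ℝ) ^ E.deg c * ((D.gp c).eval z)⁻¹ = 0)
    {Γ : Type*} [Group Γ] (R : FreeRes Γ) {Δ : Type*} [Group Δ]
    (α : Δ →* D.X) (hα : Function.Injective α)
    (hfi : (Subgroup.Commensurable.commensurator α.range).FiniteIndex)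
    (β : Δ →* Γ) (hβ : Function.Injective β) (hβ' : β.range.FiniteIndex)
    {H : Type*} [NormedAddCommGroup H] [InnerProductSpace ℂ H] [CompleteSpace H]
    (b : HilbertBasis Γ ℂ H) (ρ : Γ →* (H →L[ℂ] H)) (hρ : ∀ g h, ρ g (b h) = b (g * h)) :
    ∃ i, Nontrivial (R.HRed ρ i) := by
  by_contra hcon
  push Not at hcon
  set P := Subgroup.Commensurable.commensurator α.range with hP
  let α0 : Δ →* P := α.codRestrict P (fun x => le_commensurator α.range ⟨x, rfl⟩)
  have hα0 : Function.Injective α0 := by
    intro x y h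
    exact hα (congrArg Subtype.val h)
  have hr : α0.range = α.range.subgroupOf P := by
    ext x
    rw [Subgroup.mem_subgroupOf]
    constructor
    · rintro ⟨y, rfl⟩
      exact ⟨y, rfl⟩
    · rintro ⟨y, hy⟩
      exact ⟨y, Subtype.ext hy⟩
  have hG := good_sq E A R P α0 hα0 β hβ hρ hcon
  have hc : ∀ x : P, Subgroup.Commensurable (ConjAct.toConjAct x • α0.range) α0.range := by
    intro x
    rw [hr]
    exact comm_conj α.range x
  have hX := shift (dCx E A P.subtype) α0.range hc
    (fun S => dCx_proj E A (P.subtype.comp S.subtype)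
      (Subtype.val_injective.comp Subtype.val_injective))
    (dCx_proj E A P.subtype Subtype.val_injective) (sqS P) (sqR (lreg P)) hG
  have hD := hhExact_of_cEx _ hX
  have hD' := hhExact_unfold E A P.subtype hD
  have hfi' : P.subtype.range.FiniteIndex := by
    rw [Subgroup.range_subtype]
    exact hfi
  exact hne (fun z hz => E.coreR
    (fun y hy1 hy2 => hex_aux E hwt P.subtype Subtype.val_injective hD' y hy1 hy2) z hz)

end

end Pool.Agent.Lib.P9f173dR
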