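import Pool.Agent.Lib.P9f173dR.Ind
import Pool.Agent.Lib.P9f173dR.Vari

/-!
The main theorem for extensions of Coxeter groups with stabilisers.
-/

namespace Pool.Agent.Lib.P9f173dR

open Pool.Agent.Lib.P9f173d CoxeterSystem

section data

variable {B W G : Type*} [Group W] [Group G] [MulAction G B] {M : CoxeterMatrix B}
  {cs : CoxeterSystem M W} {φ : G →* MulAut W}
  (hφ : ∀ g b, φ g (cs.simple b) = cs.simple (g • b))
  {𝒢 : Set (Set B)} (h𝒢 : ∀ T, T ∈ 𝒢 ↔ Sph cs T) (K : LCx B G 𝒢)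

/-- The Hecke data of a labelled complex. -/
noncomputable def mkHR : HData B W G K.ι where
  M := M
  cs := cs
  φ := φ
  hφ := hφ
  wt := fun _ => 1
  pr := fun _ => 1
  wt_pos := fun _ => one_pos
  pr_pos := fun _ => one_pos
  wt_one := rfl
  wt_right := fun _ _ _ => by norm_num
  wt_left := fun _ _ _ => by norm_num
  wt_act := fun _ _ => rfl
  T := K.T
  fin := by
    intro c
    rcases K.T_mem c with h | h
    · rw [h]
      exact WT_empty_finite
    · exact ((h𝒢 _).mp h).2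

/-- The labelled matrix of a labelled complex. -/
noncomputable def mkER : CData (mkHR hφ h𝒢 K) where
  deg := K.deg
  coef := K.coef
  label := by
    intro c c' g hg b hb
    exact K.label c c' g hg ⟨b, hb, rfl⟩
  deg_coef := K.deg_coef
  sq := K.sq

theorem labT_eq (p : G × K.ι) : labT (mkHR hφ h𝒢 K) p = imT p.1 (K.T p.2) := rfl

theorem labT_empty (p : G × K.ι) : labT (mkHR hφ h𝒢 K) p = ∅ ↔ K.T p.2 = ∅ := by
  rw [labT_eq, imT, Set.image_eq_empty]

/-- The augmentation and exactness data of a labelled complex. -/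
noncomputable def mkAR : AData (mkER hφ h𝒢 K) where
  a := K.a
  a_deg := K.a_deg
  a_bd := K.a_bd
  a_one := by
    obtain ⟨x, h1, h2⟩ := K.a_one
    exact ⟨x, fun p hp => (labT_empty hφ h𝒢 K p).mpr (h1 p hp), h2⟩
  ex := by
    intro S hS1 hS2 x hx hdx
    exact K.ex S ((h𝒢 S).mpr ⟨hS1, hS2⟩) x hx hdx
  ex0 := by
    intro x hx hdx hax
    obtain ⟨z, h1, h2⟩ := K.ex0 x (fun p hp => (labT_empty hφ h𝒢 K p).mp (hx p hp)) hdx hax
    exact ⟨z, fun p hp => (labT_empty hφ h𝒢 K p).mpr (h1 p hp), h2⟩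

end data

/-- The growth function of the subgroup generated by `T`. -/
noncomputable def grw {B W : Type*} [Group W] {M : CoxeterMatrix B} (cs : CoxeterSystem M W)
    (z : ℝ) (T : Set B) : ℝ := ∑ᶠ w : WT cs T, z ^ cs.length (w : W)

theorem grw_empty {B W : Type*} [Group W] {M : CoxeterMatrix B} (cs : CoxeterSystem M W)
    (z : ℝ) : grw cs z ∅ = 1 := by
  have hbot : ∀ a : WT cs (∅ : Set B), a = 1 := by
    rintro ⟨a, ha⟩
    have : WT cs (∅ : Set B) = ⊥ := by simp [WT]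
    rw [this] at ha
    ext
    simpa using ha
  have : Unique (WT cs (∅ : Set B)) := ⟨⟨1⟩, hbot⟩
  rw [grw, finsum_unique, hbot default]
  simp

open Classical in
theorem main_theoremR {B W G : Type*} [Group W] [Group G] [MulAction G B]
    {M : CoxeterMatrix B} (cs : CoxeterSystem M W) (φ : G →* MulAut W)
    (hφ : ∀ g b, φ g (cs.simple b) = cs.simple (g • b)) (F : FreeRes G)
    (R : Finset (Set B)) (hR : ∀ T ∈ R, Sph cs T)
    (hind : ∀ T ∈ R, ∀ T' ∈ R, ∀ g : G, imT g T = T' → T = T')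
    (hcov : ∀ T : Set B, Sph cs T → ∃ T' ∈ R, ∃ g : G, T = imT g T')
    (χT : Set B → ℝ)
    (hF : ∀ T ∈ R, ∃ F : FreeRes (stS G T), ∑ c, (-1 : ℝ) ^ F.dim c = χT T)
    (hsum : (∑ c, (-1 : ℝ) ^ F.dim c) ≠ 0 ∨
      (∑ T ∈ R, (if ∃ b, T = {b} then χT T else 0)) ≠ 0 ∨
      ∃ z : ℝ, 0 < z ∧ (∑ c, (-1 : ℝ) ^ F.dim c) +
        ∑ T ∈ R, (-1 : ℝ) ^ T.ncard * χT T * (grw cs z T)⁻¹ ≠ 0)
    {Γ Δ : Type*} [Group Γ] [Group Δ] (R' : FreeRes Γ)
    (α : Δ →* W ⋊[φ] G) (hα : Function.Injective α)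
    (hα' : (Subgroup.Commensurable.commensurator α.range).FiniteIndex)
    (β : Δ →* Γ) (hβ : Function.Injective β) (hβ' : β.range.FiniteIndex)
    {H : Type*} [NormedAddCommGroup H] [InnerProductSpace ℂ H] [CompleteSpace H]
    (b : HilbertBasis Γ ℂ H) (ρ : Γ →* (H →L[ℂ] H)) (hρ : ∀ g h, ρ g (b h) = b (g * h)) :
    ∃ i, Nontrivial (R'.HRed ρ i) := by
  obtain ⟨K, hK⟩ := exists_lcx_orb F χT R.card R rfl
    (fun T hT => ⟨Sph.finite cs (hR T hT), (hR T hT).1⟩) hind
    (fun T hT S hS hST => hcov S (Sph.mono cs (hR T hT) hS hST)) hF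
  have h𝒢 : ∀ T, T ∈ orb G R ↔ Sph cs T := by
    intro T
    constructor
    · rintro ⟨T', hT', g, rfl⟩
      exact Sph.image hφ (hR T' hT') g
    · intro hT
      exact hcov T hT
  let α' : Δ →* (mkHR hφ h𝒢 K).X := α
  refine main_dataC (E := mkER hφ h𝒢 K) (fun _ => rfl) (mkAR hφ h𝒢 K) ?_ R' α' hα hα'
    β hβ hβ' b ρ hρ
  intro hall
  rcases hsum with h | h | ⟨z, hz, hne⟩
  · apply h
    have h1 := (CData.limitsR (mkER hφ h𝒢 K) (fun _ => rfl) hall).1
    have h2 : K.wsum (fun T => if T = ∅ then 1 else 0) = 0 := h1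
    rw [hK, if_pos rfl, mul_one] at h2
    have h3 : ∑ T ∈ R, (-1 : ℝ) ^ T.ncard * χT T * (if T = ∅ then 1 else 0) = 0 := by
      apply Finset.sum_eq_zero
      intro T hT
      rw [if_neg (hR T hT).1.ne_empty, mul_zero]
    rw [h3, add_zero] at h2
    exact h2
  · apply h
    have h1 := (CData.limitsR (mkER hφ h𝒢 K) (fun _ => rfl) hall).2
    have h2 : K.wsum (fun T => if ∃ b, T = {b} then 1 else 0) = 0 := h1
    rw [hK, if_neg (by
      rintro ⟨b, hb⟩
      exact Set.singleton_ne_empty b hb.symm), mul_zero, zero_add] at h2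
    refine neg_eq_zero.mp (Eq.trans ?_ h2)
    rw [← Finset.sum_neg_distrib]
    apply Finset.sum_congr rfl
    intro T _
    by_cases hT : ∃ b, T = {b}
    · rw [if_pos hT, if_pos hT]
      obtain ⟨b, rfl⟩ := hT
      rw [Set.ncard_singleton, pow_one, mul_one]
      ring
    · rw [if_neg hT, if_neg hT, neg_zero, mul_zero]
  · have h1 := hK (fun T => (grw cs z T)⁻¹)
    rw [grw_empty, inv_one, mul_one] at h1
    rw [← h1] at hne
    have h2 : ∀ c, ((mkHR hφ h𝒢 K).gp c).eval z = grw cs z (K.T c) := by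
      intro c
      let _ : Fintype (WT cs (K.T c)) := HData.instFin (mkHR hφ h𝒢 K) c
      rw [HData.gp_eval, grw, finsum_eq_sum_of_fintype]
      apply Finset.sum_congr rfl
      intro w _
      show (1 : ℝ)⁻¹ * z ^ cs.length (w : W) = _
      rw [inv_one, one_mul]
    have h3 := hall z hz
    simp only [h2] at h3
    exact hne h3

end Pool.Agent.Lib.P9f173dR
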