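import Pool.Agent.Lib.P9f173dR.Defs

/-!
The homology of the cells labelled by proper subsets of a finite set `T`.

Proof.  Only closed sets of cells are used.  Mayer-Vietoris: if `P₁`, `P₂` are closed and `P₁`, `P₂`
are exact, then `P₁ ∪ P₂` is exact as soon as `P₁ ∩ P₂` is (`exP_or`), and has one-dimensional
homology in degree `m + 1` if `P₁ ∩ P₂` has one-dimensional homology in degree `m` (`h1_or`).
For `b ∈ D ⊆ T` and `E ⊆ D \ {b}` the cells with `lab j ⊆ D`, `E ⊄ lab j` are exact: induction on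
`E` (`exP_join`).  For `T = T' ∪ {b}` the set `{lab j ⊂ T}` is the union of `{lab j ⊆ T'}` and
`{lab j ⊆ T, T' ⊄ lab j}`, with intersection `{lab j ⊂ T'}`.
-/

namespace Pool.Agent.Lib.P9f173dR

open Pool.Agent.Lib.P9f173d

section mv

variable {J : Type*} {d : (J →₀ ℂ) →ₗ[ℂ] (J →₀ ℂ)} {P P₁ P₂ : J → Prop}

theorem SOn.add {x y : J →₀ ℂ} (hx : SOn P x) (hy : SOn P y) : SOn P (x + y) := by
  intro j hj
  by_cases h : x j = 0
  · refine hy j fun h' => hj ?_
    rw [Finsupp.add_apply, h, h', add_zero]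
  · exact hx j h

theorem SOn.neg {x : J →₀ ℂ} (hx : SOn P x) : SOn P (-x) := by
  intro j hj
  refine hx j fun h => hj ?_
  rw [Finsupp.neg_apply, h, neg_zero]

theorem SOn.sub {x y : J →₀ ℂ} (hx : SOn P x) (hy : SOn P y) : SOn P (x - y) := by
  rw [sub_eq_add_neg]
  exact hx.add hy.neg

theorem SOn.smul {x : J →₀ ℂ} (r : ℂ) (hx : SOn P x) : SOn P (r • x) := by
  intro j hj
  refine hx j fun h => hj ?_
  rw [Finsupp.smul_apply, h, smul_zero]

theorem SOn.mono {Q : J → Prop} {x : J →₀ ℂ} (hx : SOn P x) (h : ∀ j, P j → Q j) : SOn Q x :=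
  fun j hj => h j (hx j hj)

theorem SOn.and {x : J →₀ ℂ} (h₁ : SOn P₁ x) (h₂ : SOn P₂ x) : SOn (fun j => P₁ j ∧ P₂ j) x :=
  fun j hj => ⟨h₁ j hj, h₂ j hj⟩

open Classical in
theorem SOn.split {x : J →₀ ℂ} (hx : SOn (fun j => P₁ j ∨ P₂ j) x) :
    ∃ x₁ x₂, SOn P₁ x₁ ∧ SOn P₂ x₂ ∧ x = x₁ + x₂ := by
  refine ⟨x.filter P₁, x.filter fun j => ¬ P₁ j, ?_, ?_, (Finsupp.filter_add_filter_not _ _).symm⟩
  · intro j hj
    by_contra h
    exact hj (Finsupp.filter_apply_neg _ _ h)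
  · intro j hj
    by_cases h : P₁ j
    · exact absurd (Finsupp.filter_apply_neg (fun j => ¬ P₁ j) x (not_not.2 h)) hj
    · rw [Finsupp.filter_apply_pos (fun j => ¬ P₁ j) x h] at hj
      exact (hx j hj).resolve_left h

theorem d_ne_zero {x : J →₀ ℂ} {q : J} (h : d x q ≠ 0) :
    ∃ p, x p ≠ 0 ∧ d (Finsupp.single p 1) q ≠ 0 := by
  by_contra hcon
  push Not at hcon
  apply h
  have h1 : d x = x.sum fun p c => c • d (Finsupp.single p 1) := by
    conv_lhs => rw [← Finsupp.sum_single x, Finsupp.sum, map_sum]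
    refine Finset.sum_congr rfl fun p _ => ?_
    show d (Finsupp.single p (x p)) = x p • d (Finsupp.single p 1)
    rw [← map_smul, Finsupp.smul_single, smul_eq_mul, mul_one]
  rw [h1, Finsupp.sum, Finsupp.finsetSum_apply]
  refine Finset.sum_eq_zero fun p hp => ?_
  rw [Finsupp.smul_apply, hcon p (Finsupp.mem_support_iff.1 hp), smul_zero]

theorem exP_or (hc₁ : ∀ x, SOn P₁ x → SOn P₁ (d x)) (hc₂ : ∀ x, SOn P₂ x → SOn P₂ (d x))
    (hdd : ∀ x, d (d x) = 0) (h₁ : ExP d P₁) (h₂ : ExP d P₂)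
    (h : ExP d fun j => P₁ j ∧ P₂ j) : ExP d fun j => P₁ j ∨ P₂ j := by
  intro x hx hdx
  obtain ⟨x₁, x₂, hx₁, hx₂, rfl⟩ := hx.split
  rw [map_add] at hdx
  have e1 : d x₁ = -d x₂ := eq_neg_of_add_eq_zero_left hdx
  have e2 : SOn (fun j => P₁ j ∧ P₂ j) (d x₁) :=
    (hc₁ _ hx₁).and (by rw [e1]; exact (hc₂ _ hx₂).neg)
  obtain ⟨w, hw, hwd⟩ := h (d x₁) e2 (hdd _)
  obtain ⟨y₁, hy₁, e3⟩ := h₁ (x₁ - w) (hx₁.sub (hw.mono fun _ h => h.1))
    (by rw [map_sub, hwd, sub_self])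
  obtain ⟨y₂, hy₂, e4⟩ := h₂ (x₂ + w) (hx₂.add (hw.mono fun _ h => h.2))
    (by rw [map_add, hwd, e1, add_neg_cancel])
  refine ⟨y₁ + y₂, (hy₁.mono fun _ h => Or.inl h).add (hy₂.mono fun _ h => Or.inr h), ?_⟩
  rw [map_add, e3, e4]
  abel

theorem h1_or {deg : J → ℕ} {m : ℕ}
    (hdeg : ∀ p q, d (Finsupp.single p 1) q ≠ 0 → deg p = deg q + 1)
    (hc₁ : ∀ x, SOn P₁ x → SOn P₁ (d x)) (hc₂ : ∀ x, SOn P₂ x → SOn P₂ (d x))
    (hdd : ∀ x, d (d x) = 0) (h₁ : ExP d P₁) (h₂ : ExP d P₂)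
    (h : H1 d deg (fun j => P₁ j ∧ P₂ j) m) : H1 d deg (fun j => P₁ j ∨ P₂ j) (m + 1) := by
  classical
  obtain ⟨z, hz, hzm, hdz, hnz, hgen⟩ := h
  -- a primitive of `z` of degree `m + 1`
  have key : ∀ {Q : J → Prop}, ExP d Q → SOn Q z →
      ∃ y, SOn Q y ∧ (∀ j, y j ≠ 0 → deg j = m + 1) ∧ d y = z := by
    intro Q hQ hzQ
    obtain ⟨y, hy, hyz⟩ := hQ z hzQ hdz
    set y' := y.filter fun j => deg j = m + 1 with hy'
    set y'' := y.filter fun j => ¬ deg j = m + 1 with hy''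
    have e1 : y = y' + y'' := (Finsupp.filter_add_filter_not _ _).symm
    have e2 : ∀ j, y' j ≠ 0 → deg j = m + 1 ∧ y j ≠ 0 := by
      intro j hj
      by_cases h : deg j = m + 1
      · rw [hy', Finsupp.filter_apply_pos (fun j => deg j = m + 1) y h] at hj
        exact ⟨h, hj⟩
      · exact absurd (Finsupp.filter_apply_neg (fun j => deg j = m + 1) y h) hj
    have e3 : ∀ j, y'' j ≠ 0 → deg j ≠ m + 1 := by
      intro j hj h
      exact hj (Finsupp.filter_apply_neg (fun j => ¬ deg j = m + 1) y (not_not.2 h))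
    refine ⟨y', fun j hj => hy j (e2 j hj).2, fun j hj => (e2 j hj).1, ?_⟩
    have e4 : d y' + d y'' = z := by rw [← map_add, ← e1, hyz]
    ext j
    by_cases hj : deg j = m
    · have e5 : d y'' j = 0 := by
        by_contra hne
        obtain ⟨p, hp, hpj⟩ := d_ne_zero hne
        exact e3 p hp (by rw [hdeg p j hpj, hj])
      rw [← e4, Finsupp.add_apply, e5, add_zero]
    · have e5 : d y' j = 0 := by
        by_contra hne
        obtain ⟨p, hp, hpj⟩ := d_ne_zero hne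
        have := hdeg p j hpj
        rw [(e2 p hp).1] at this
        exact hj (by omega)
      rw [e5]
      by_contra hne
      exact hj (hzm j (Ne.symm hne))
  obtain ⟨y₁, hy₁, hy₁m, e1⟩ := key h₁ (hz.mono fun _ h => h.1)
  obtain ⟨y₂, hy₂, hy₂m, e2⟩ := key h₂ (hz.mono fun _ h => h.2)
  have hl : ∀ {x : J →₀ ℂ}, SOn P₁ x → SOn (fun j => P₁ j ∨ P₂ j) x :=
    fun h => h.mono fun _ h => Or.inl h
  have hr : ∀ {x : J →₀ ℂ}, SOn P₂ x → SOn (fun j => P₁ j ∨ P₂ j) x :=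
    fun h => h.mono fun _ h => Or.inr h
  refine ⟨y₁ - y₂, (hl hy₁).sub (hr hy₂), ?_, ?_, ?_, ?_⟩
  · intro j hj
    by_cases h : y₁ j = 0
    · refine hy₂m j fun h' => hj ?_
      rw [Finsupp.sub_apply, h, h', sub_zero]
    · exact hy₁m j h
  · rw [map_sub, e1, e2, sub_self]
  · rintro ⟨w, hw, hwd⟩
    obtain ⟨w₁, w₂, hw₁, hw₂, rfl⟩ := hw.split
    rw [map_add] at hwd
    apply hnz
    have e3 : y₁ - d w₁ = y₂ + d w₂ := by
      rw [sub_eq_iff_eq_add, add_assoc, add_comm (d w₂), hwd]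
      abel
    refine ⟨y₁ - d w₁, (hy₁.sub (hc₁ _ hw₁)).and ?_, ?_⟩
    · rw [e3]
      exact hy₂.add (hc₂ _ hw₂)
    · rw [map_sub, hdd, sub_zero, e1]
  · intro x hx hdx
    obtain ⟨x₁, x₂, hx₁, hx₂, rfl⟩ := hx.split
    rw [map_add] at hdx
    have e3 : d x₁ = -d x₂ := eq_neg_of_add_eq_zero_left hdx
    obtain ⟨r, w, hw, hrw⟩ := hgen (d x₁)
      ((hc₁ _ hx₁).and (by rw [e3]; exact (hc₂ _ hx₂).neg)) (hdd _)
    obtain ⟨u₁, hu₁, e4⟩ := h₁ (x₁ - r • y₁ - w)
      ((hx₁.sub (hy₁.smul r)).sub (hw.mono fun _ h => h.1))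
      (by rw [map_sub, map_sub, map_smul, e1, hrw]; abel)
    obtain ⟨u₂, hu₂, e5⟩ := h₂ (x₂ + r • y₂ + w)
      ((hx₂.add (hy₂.smul r)).add (hw.mono fun _ h => h.2))
      (by
        rw [map_add, map_add, map_smul, e2, add_assoc, ← hrw, e3, add_neg_cancel])
    refine ⟨r, u₁ + u₂, (hl hu₁).add (hr hu₂), ?_⟩
    rw [map_add, e4, e5, smul_sub]
    abel

end mv

section

variable {J B : Type*} {d : (J →₀ ℂ) →ₗ[ℂ] (J →₀ ℂ)} {lab : J → Set B}

theorem exP_join (hlab : ∀ p q, d (Finsupp.single p 1) q ≠ 0 → lab q ⊆ lab p)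
    (hdd : ∀ x, d (d x) = 0) {T : Set B}
    (hex : ∀ S : Set B, S.Nonempty → S ⊂ T → ExP d (fun j => lab j ⊆ S)) {b : B}
    (E : Finset B) : ∀ D : Set B, D ⊆ T → b ∈ D → (E : Set B) ⊆ D → b ∉ E →
      ExP d fun j => lab j ⊆ D ∧ ¬ (E : Set B) ⊆ lab j := by
  classical
  have hcl : ∀ (D E : Set B) (x : J →₀ ℂ), SOn (fun j => lab j ⊆ D ∧ ¬ E ⊆ lab j) x →
      SOn (fun j => lab j ⊆ D ∧ ¬ E ⊆ lab j) (d x) := by
    intro D E x hx q hq
    obtain ⟨p, hp, hpq⟩ := d_ne_zero hq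
    have h1 := hx p hp
    exact ⟨(hlab p q hpq).trans h1.1, fun h => h1.2 (h.trans (hlab p q hpq))⟩
  have hcl' : ∀ (D : Set B) (x : J →₀ ℂ), SOn (fun j => lab j ⊆ D) x →
      SOn (fun j => lab j ⊆ D) (d x) := by
    intro D x hx q hq
    obtain ⟨p, hp, hpq⟩ := d_ne_zero hq
    exact (hlab p q hpq).trans (hx p hp)
  induction E using Finset.induction_on with
  | empty =>
    intro D _ _ _ _ x hx _
    refine ⟨0, fun j hj => absurd rfl hj, ?_⟩
    rw [map_zero]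
    symm
    ext j
    by_contra hj
    exact (hx j hj).2 (by simp)
  | insert c E' hc ih =>
    intro D hDT hbD hED hbE
    rw [Finset.coe_insert, Set.insert_subset_iff] at hED
    rw [Finset.mem_insert, not_or] at hbE
    have e1 : (fun j => lab j ⊆ D ∧ ¬ ((insert c E' : Finset B) : Set B) ⊆ lab j) =
        fun j => (lab j ⊆ D ∧ ¬ (E' : Set B) ⊆ lab j) ∨ lab j ⊆ D \ {c} := by
      ext j
      rw [Finset.coe_insert, Set.insert_subset_iff, Set.subset_sdiff, Set.disjoint_singleton_right]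
      tauto
    have e2 : (fun j => (lab j ⊆ D ∧ ¬ (E' : Set B) ⊆ lab j) ∧ lab j ⊆ D \ {c}) =
        fun j => lab j ⊆ D \ {c} ∧ ¬ (E' : Set B) ⊆ lab j := by
      ext j
      rw [Set.subset_sdiff, Set.disjoint_singleton_right]
      tauto
    rw [e1]
    refine exP_or (hcl _ _) (hcl' _) hdd (ih D hDT hbD hED.2 hbE.2) (hex _ ⟨b, hbD, hbE.1⟩ ?_) ?_
    · refine ⟨Set.sdiff_subset.trans hDT, fun h => ?_⟩
      exact (h (hDT hED.1)).2 rfl
    · rw [e2]
      refine ih (D \ {c}) (Set.sdiff_subset.trans hDT) ⟨hbD, hbE.1⟩ ?_ hbE.2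
      rw [Set.subset_sdiff, Set.disjoint_singleton_right]
      exact ⟨hED.2, hc⟩

end

theorem h1_proper {J B : Type*} (d : (J →₀ ℂ) →ₗ[ℂ] (J →₀ ℂ)) (deg : J → ℕ) (lab : J → Set B)
    (hlab : ∀ p q, d (Finsupp.single p 1) q ≠ 0 → lab q ⊆ lab p)
    (hdeg : ∀ p q, d (Finsupp.single p 1) q ≠ 0 → deg p = deg q + 1)
    (hdd : ∀ x, d (d x) = 0)
    {T : Set B} (hT : T.Finite) (hne : T.Nonempty)
    (h0 : H1 d deg (fun j => lab j = ∅) 0)
    (hex : ∀ S : Set B, S.Nonempty → S ⊂ T → ExP d (fun j => lab j ⊆ S)) :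
    H1 d deg (fun j => lab j ⊂ T) (T.ncard - 1) := by
  classical
  have hcl' : ∀ (D : Set B) (x : J →₀ ℂ), SOn (fun j => lab j ⊆ D) x →
      SOn (fun j => lab j ⊆ D) (d x) := by
    intro D x hx q hq
    obtain ⟨p, hp, hpq⟩ := d_ne_zero hq
    exact (hlab p q hpq).trans (hx p hp)
  have hcl : ∀ (D E : Set B) (x : J →₀ ℂ), SOn (fun j => lab j ⊆ D ∧ ¬ E ⊆ lab j) x →
      SOn (fun j => lab j ⊆ D ∧ ¬ E ⊆ lab j) (d x) := by
    intro D E x hx q hq
    obtain ⟨p, hp, hpq⟩ := d_ne_zero hq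
    have h1 := hx p hp
    exact ⟨(hlab p q hpq).trans h1.1, fun h => h1.2 (h.trans (hlab p q hpq))⟩
  induction T, hT using Set.Finite.induction_on with
  | empty => exact absurd hne Set.not_nonempty_empty
  | @insert b T' hb hT' ih =>
    rcases T'.eq_empty_or_nonempty with rfl | hne'
    · have e1 : (fun j => lab j ⊂ insert b (∅ : Set B)) = fun j => lab j = ∅ := by
        ext j
        rw [insert_empty_eq, Set.ssubset_singleton_iff]
      rw [e1, insert_empty_eq, Set.ncard_singleton]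
      exact h0
    · have hsub : T' ⊂ insert b T' := Set.ssubset_insert hb
      have hih := ih hne' fun S hS hST => hex S hS (hST.trans hsub)
      have hcard : (insert b T').ncard - 1 = (T'.ncard - 1) + 1 := by
        rw [Set.ncard_insert_of_notMem hb hT']
        have : 0 < T'.ncard := (Set.ncard_pos hT').2 hne'
        omega
      have e1 : (fun j => lab j ⊂ insert b T') =
          fun j => lab j ⊆ T' ∨ (lab j ⊆ insert b T' ∧ ¬ T' ⊆ lab j) := by
        ext j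
        constructor
        · rintro ⟨h1, h2⟩
          by_cases h3 : T' ⊆ lab j
          · left
            intro x hx
            rcases h1 hx with h4 | h4
            · exfalso
              apply h2
              rw [Set.insert_subset_iff]
              exact ⟨h4 ▸ hx, h3⟩
            · exact h4
          · exact Or.inr ⟨h1, h3⟩
        · rintro (h1 | ⟨h1, h2⟩)
          · exact lt_of_le_of_lt h1 hsub
          · exact ⟨h1, fun h3 => h2 (hsub.1.trans h3)⟩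
      have e2 : (fun j => lab j ⊆ T' ∧ (lab j ⊆ insert b T' ∧ ¬ T' ⊆ lab j)) =
          fun j => lab j ⊂ T' := by
        ext j
        constructor
        · rintro ⟨h1, _, h2⟩
          exact ⟨h1, h2⟩
        · rintro ⟨h1, h2⟩
          exact ⟨h1, h1.trans hsub.1, h2⟩
      rw [hcard, e1]
      have h3 := exP_join hlab hdd hex (b := b) hT'.toFinset (insert b T') subset_rfl
        (Set.mem_insert _ _) (by rw [Set.Finite.coe_toFinset]; exact hsub.1)
        (by rw [Set.Finite.mem_toFinset]; exact hb)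
      rw [Set.Finite.coe_toFinset] at h3
      refine h1_or hdeg (hcl' _) (hcl _ _) hdd (hex T' hne' hsub) h3 ?_
      rw [e2]
      exact hih

end Pool.Agent.Lib.P9f173dR
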