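import Pool.Agent.Lib.P9f173dR.Tgt
import Pool.Agent.Lib.P9f173dR.Attach

/-!
Existence of labelled complexes, by attaching one orbit of labels after the other.
-/

namespace Pool.Agent.Lib.P9f173dR

open Pool.Agent.Lib.P9f173d

variable {B G : Type*} [Group G] [MulAction G B]

/-- The family of translates of the members of `R`. -/
def orb (G : Type*) [Group G] [MulAction G B] (R : Finset (Set B)) : Set (Set B) :=
  {T | ∃ T' ∈ R, ∃ g : G, T = imT g T'}

/-- The labelled complex with empty labels. -/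
noncomputable def LCx.base (F₀ : FreeRes G) : LCx B G (orb G (∅ : Finset (Set B))) where
  ι := F₀.cell
  T := fun _ => ∅
  deg := F₀.dim
  coef := F₀.bdC
  a := fun c => (F₀.aug c : ℂ)
  T_mem := fun _ => Or.inl rfl
  label := by
    intro c c' g _
    simp [imT]
  deg_coef := F₀.bdC_dim
  sq := F₀.bdC_bdC
  a_deg := by
    intro c h
    apply F₀.aug_dim
    rintro h0
    apply h
    simp [h0]
  a_bd := fun c _ => F₀.aug_bdC c
  a_one := by
    obtain ⟨x, hx⟩ := (F₀.toCx_exact (MonoidHom.id G)).2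
    exact ⟨x, fun _ _ => rfl, hx⟩
  ex := by
    rintro S ⟨T', h, _⟩
    exact absurd h (Finset.notMem_empty T')
  ex0 := by
    intro x _ h1 h2
    obtain ⟨z, hz⟩ := (F₀.toCx_exact (MonoidHom.id G)).1 x h1 h2
    exact ⟨z, fun _ _ => rfl, hz⟩

theorem ncard_imT (g : G) (T : Set B) : (imT g T).ncard = T.ncard :=
  Set.ncard_image_of_injective T (MulAction.injective g)

open Classical in
theorem exists_lcx_orb (F₀ : FreeRes G) (χT : Set B → ℝ) : ∀ (n : ℕ) (R : Finset (Set B)),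
    R.card = n → (∀ T ∈ R, T.Finite ∧ T.Nonempty) →
    (∀ T ∈ R, ∀ T' ∈ R, ∀ g : G, imT g T = T' → T = T') →
    (∀ T ∈ R, ∀ S : Set B, S.Nonempty → S ⊆ T → ∃ T' ∈ R, ∃ g : G, S = imT g T') →
    (∀ T ∈ R, ∃ F : FreeRes (stS G T), ∑ c, (-1 : ℝ) ^ F.dim c = χT T) →
    ∃ K : LCx B G (orb G R), ∀ f : Set B → ℝ, K.wsum f =
      (∑ c, (-1 : ℝ) ^ F₀.dim c) * f ∅ + ∑ T ∈ R, (-1 : ℝ) ^ T.ncard * χT T * f T := by
  intro n
  induction n with
  | zero =>
    intro R hR _ _ _ _
    rw [Finset.card_eq_zero] at hR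
    subst hR
    refine ⟨LCx.base F₀, fun f => ?_⟩
    rw [Finset.sum_empty, add_zero, Finset.sum_mul]
    rfl
  | succ n ih =>
    intro R hR hfin hind hdown hF
    have hne : R.Nonempty := by
      rw [← Finset.card_pos]
      omega
    obtain ⟨T₀, hT₀, hmax⟩ := R.exists_max_image (fun T => T.ncard) hne
    obtain ⟨K, hK⟩ := ih (R.erase T₀) (by rw [Finset.card_erase_of_mem hT₀]; omega)
      (fun T hT => hfin T (Finset.mem_of_mem_erase hT))
      (fun T hT T' hT' g h => hind T (Finset.mem_of_mem_erase hT) T'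
        (Finset.mem_of_mem_erase hT') g h)
      (by
        intro T hT S hS hST
        have hTR := Finset.mem_of_mem_erase hT
        obtain ⟨T', hT', g, hg⟩ := hdown T hTR S hS hST
        refine ⟨T', Finset.mem_erase.mpr ⟨?_, hT'⟩, g, hg⟩
        rintro rfl
        have h1 : S.ncard = T'.ncard := by rw [hg, ncard_imT]
        have h2 : S = T := Set.eq_of_subset_of_ncard_le hST (by
          rw [h1]
          exact hmax T hTR) (hfin T hTR).1
        have h3 : T' = T := hind T' hT' T hTR g (by rw [← hg, h2])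
        exact (Finset.ne_of_mem_erase hT) h3.symm)
      (fun T hT => hF T (Finset.mem_of_mem_erase hT))
    obtain ⟨F, hFχ⟩ := hF T₀ hT₀
    have hinv : ∀ (g : G), ∀ T ∈ orb G (R.erase T₀), imT g T ∈ orb G (R.erase T₀) := by
      rintro g _ ⟨T', hT', h, rfl⟩
      exact ⟨T', hT', g * h, (imT_mul g h T').symm⟩
    have hsub : ∀ S : Set B, S.Nonempty → S ⊂ T₀ → S ∈ orb G (R.erase T₀) := by
      intro S hS hST
      obtain ⟨T', hT', g, hg⟩ := hdown T₀ hT₀ S hS hST.subset
      refine ⟨T', Finset.mem_erase.mpr ⟨?_, hT'⟩, g, hg⟩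
      rintro rfl
      have h1 : S.ncard = T'.ncard := by rw [hg, ncard_imT]
      have h2 := Set.ncard_lt_ncard hST (hfin T' hT').1
      omega
    have hdown' : ∀ T ∈ orb G (R.erase T₀), ∀ S : Set B, S.Nonempty → S ⊆ T →
        S ∈ orb G (R.erase T₀) := by
      rintro _ ⟨T₁, hT₁, g, rfl⟩ S hS hST
      have hTR := Finset.mem_of_mem_erase hT₁
      have h0 : imT g⁻¹ S ⊆ T₁ := by
        have : imT g⁻¹ S ⊆ imT g⁻¹ (imT g T₁) := Set.image_mono hST
        rwa [imT_inv_imT] at this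
      obtain ⟨T', hT', k, hk⟩ := hdown T₁ hTR (imT g⁻¹ S) (hS.image _) h0
      have hS' : S = imT (g * k) T' := by
        rw [imT_mul, ← hk, imT_imT_inv]
      refine ⟨T', Finset.mem_erase.mpr ⟨?_, hT'⟩, g * k, hS'⟩
      rintro rfl
      have h1 : (imT g⁻¹ S).ncard = T'.ncard := by rw [hk, ncard_imT]
      have h2 : imT g⁻¹ S = T₁ := Set.eq_of_subset_of_ncard_le h0 (by
        rw [h1]
        exact hmax T₁ hTR) (hfin T₁ hTR).1
      have h3 : T' = T₁ := hind T' hT' T₁ hTR k (by rw [← hk, h2])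
      exact (Finset.ne_of_mem_erase hT₁) h3.symm
    have hmem : T₀ ∉ orb G (R.erase T₀) := by
      rintro ⟨T', hT', g, hg⟩
      have := hind T' (Finset.mem_of_mem_erase hT') T₀ hT₀ g hg.symm
      exact (Finset.ne_of_mem_erase hT') this
    obtain ⟨A⟩ := exists_att K T₀ (hfin T₀ hT₀).1 (hfin T₀ hT₀).2 hsub F
    obtain ⟨K', hK'⟩ := attach hinv hdown' K T₀ (hfin T₀ hT₀).1 (hfin T₀ hT₀).2 hmem F A
    have hset : orb G (R.erase T₀) ∪ {T | ∃ g : G, T = imT g T₀} = orb G R := by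
      ext T
      constructor
      · rintro (⟨T', hT', g, hg⟩ | ⟨g, hg⟩)
        · exact ⟨T', Finset.mem_of_mem_erase hT', g, hg⟩
        · exact ⟨T₀, hT₀, g, hg⟩
      · rintro ⟨T', hT', g, hg⟩
        by_cases h : T' = T₀
        · exact Or.inr ⟨g, by rw [hg, h]⟩
        · exact Or.inl ⟨T', Finset.mem_erase.mpr ⟨h, hT'⟩, g, hg⟩
    rw [← hset]
    refine ⟨K', fun f => ?_⟩
    rw [hK', hK, ← Finset.add_sum_erase R _ hT₀, hFχ]
    ring

end Pool.Agent.Lib.P9f173dR
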