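import Pool.Agent.Lib.P9f173d.Stmt

/-!
Euler characteristics of resolutions and growth functions of Coxeter groups.
-/

namespace Pool.Agent.Lib.P9f173dR

open Pool.Agent.Lib.P9f173d

/-- The Euler characteristic of a finite free resolution: the alternating sum of the numbers of
cells. -/
def chi {Γ : Type*} [Group Γ] (F : FinRes Γ) : ℝ := ∑ c, (-1 : ℝ) ^ F.dim c

/-- The growth function `W_T(t) = ∑ t ^ ℓ(w)`, the sum over the elements `w` of the subgroup `W_T`
generated by the simple reflections indexed by `T`. -/
noncomputable def growth {B W : Type*} [Group W] {M : CoxeterMatrix B} (cs : CoxeterSystem M W)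
    (T : Set B) (t : ℝ) : ℝ :=
  ∑ᶠ w : Subgroup.closure (cs.simple '' T), t ^ cs.length (w : W)

end Pool.Agent.Lib.P9f173dR
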