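import Pool.Agent.Lib.P9f173dR.Final
import Pool.Agent.Lib.P9f173dR.Stmt
import Pool.Agent.Lib.P9f173d.Conv

/-!
The main theorem in the form used in the statement.
-/

namespace Pool.Agent.Lib.P9f173dR

open Pool.Agent.Lib.P9f173d CoxeterSystem

open scoped Pointwise

theorem freeRes_of_eq {G : Type*} [Group G] {H H' : Subgroup G} (h : H = H') (F : FreeRes H) :
    ∃ F' : FreeRes H', ∑ c, (-1 : ℝ) ^ F'.dim c = ∑ c, (-1 : ℝ) ^ F.dim c := by
  subst h
  exact ⟨F, rfl⟩

theorem stabilizer_eq_stS {B G : Type*} [Group G] [MulAction G B] (T : Set B) :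
    MulAction.stabilizer G T = stS G T := by
  ext g
  rw [MulAction.mem_stabilizer_iff]
  rfl

theorem main_theoremR' {B W G : Type*} [Group W] [Group G] [MulAction G B]
    {M : CoxeterMatrix B} (cs : CoxeterSystem M W) (φ : G →* MulAut W)
    (hφ : ∀ g b, φ g (cs.simple b) = cs.simple (g • b)) (F : FinRes G)
    (r : Finset (Set B))
    (hr : ∀ T : Set B, (∃ T' ∈ r, ∃ g : G, g • T' = T) ↔
      T.Nonempty ∧ Finite (Subgroup.closure (cs.simple '' T)))
    (hr' : ∀ T ∈ r, ∀ T' ∈ r, ∀ g : G, g • T = T' → T = T')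
    (E : ∀ T : r, FinRes (MulAction.stabilizer G (T : Set B)))
    (hE : chi F ≠ 0 ∨ (∑ T : r, if (T : Set B).ncard = 1 then chi (E T) else 0) ≠ 0 ∨
      ∃ t : ℝ, 0 < t ∧
        chi F + ∑ T : r, (-1 : ℝ) ^ (T : Set B).ncard * chi (E T) / growth cs T t ≠ 0)
    {Γ Δ : Type*} [Group Γ] [Group Δ] (R' : FreeRes Γ)
    (α : Δ →* W ⋊[φ] G) (hα : Function.Injective α)
    (hα' : (Subgroup.Commensurable.commensurator α.range).FiniteIndex)
    (β : Δ →* Γ) (hβ : Function.Injective β) (hβ' : β.range.FiniteIndex)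
    {H : Type*} [NormedAddCommGroup H] [InnerProductSpace ℂ H] [CompleteSpace H]
    (b : HilbertBasis Γ ℂ H) (ρ : Γ →* (H →L[ℂ] H)) (hρ : ∀ g h, ρ g (b h) = b (g * h)) :
    ∃ i, Nontrivial (R'.HRed ρ i) := by
  classical
  refine main_theoremR cs φ hφ F.toFreeRes r ?_ hr' ?_
    (fun T => if h : T ∈ r then chi (E ⟨T, h⟩) else 0) ?_ ?_ R' α hα hα' β hβ hβ' b ρ hρ
  · intro T hT
    exact (hr T).mp ⟨T, hT, 1, one_smul G T⟩
  · intro T hT
    obtain ⟨T', hT', g, hg⟩ := (hr T).mpr hT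
    exact ⟨T', hT', g, hg.symm⟩
  · intro T hT
    simp only [hT, dite_true]
    exact freeRes_of_eq (stabilizer_eq_stS T) (E ⟨T, hT⟩).toFreeRes
  · rcases hE with h | h | ⟨t, ht, hne⟩
    · exact Or.inl h
    · refine Or.inr (Or.inl ?_)
      have h1 : ∑ T ∈ r, (if ∃ b, T = {b} then (if h : T ∈ r then chi (E ⟨T, h⟩) else 0) else 0) =
          ∑ T : r, (if (T : Set B).ncard = 1 then chi (E T) else 0) := by
        rw [← Finset.sum_coe_sort]
        apply Finset.sum_congr rfl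
        rintro ⟨T, hT⟩ _
        simp only [hT, dite_true]
        by_cases h2 : ∃ b, T = {b}
        · rw [if_pos h2, if_pos (Set.ncard_eq_one.mpr h2)]
        · rw [if_neg h2, if_neg (fun h3 => h2 (Set.ncard_eq_one.mp h3))]
      rw [h1]
      exact h
    · refine Or.inr (Or.inr ⟨t, ht, ?_⟩)
      have h1 : ∑ T ∈ r, (-1 : ℝ) ^ T.ncard * (if h : T ∈ r then chi (E ⟨T, h⟩) else 0) *
          (grw cs t T)⁻¹ =
          ∑ T : r, (-1 : ℝ) ^ (T : Set B).ncard * chi (E T) / growth cs T t := by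
        rw [← Finset.sum_coe_sort]
        apply Finset.sum_congr rfl
        rintro ⟨T, hT⟩ _
        simp only [hT, dite_true]
        rw [div_eq_mul_inv]
        rfl
      rw [h1]
      exact hne

end Pool.Agent.Lib.P9f173dR
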