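import Pool.Agent.Lib.P9f173dR.Hom

/-!
The comparison theorem for the part of a labelled complex strictly below a set `T₀`.

Proof.  Let `d = mbd K.coef`, `P = (K.lab · ⊂ T₀)`, `n = |T₀| - 1`, `G₀ = stS G T₀`.  `h1_proper` gives
`z` on `P`, a cycle of degree `n` which is not a boundary on `P` and generates the homology of `P`.
Choose a linear functional `e0` with `e0 = 0` on `d (functions on P)` and `e0 z = 1`.  For
`h ∈ G₀` the translation by `h` preserves `P`, so `h z = χ(h) z + boundary` with `χ(h) = e0 (h z)`, a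
homomorphism, and `e0 (h x) = χ(h) e0 x` for every cycle `x` on `P`.
Target `V` (a `Cx G₀`): functions `x` on `P`, zero in degrees `< n`, with `d (gpr deg n x) = 0`; action
`h • x = χ(h)⁻¹ (translation by h)`, projections `e k = gpr deg (k + n)`, augmentation `e0`.
The comparison of the resolution of `G₀` with `V` gives the map, and its cone is exact.
-/

namespace Pool.Agent.Lib.P9f173dR

open Pool.Agent.Lib.P9f173d

variable {B G : Type*} [Group G] [MulAction G B] {𝒢 : Set (Set B)}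

namespace Tgt

section sup

variable {J : Type*} {P : J → Prop}

/-- The functions supported on `P`. -/
def SP (P : J → Prop) : Submodule ℂ (J →₀ ℂ) where
  carrier := {x | SOn P x}
  add_mem' := by
    intro x y hx hy j hj
    by_cases h : x j = 0
    · apply hy j
      intro h2
      apply hj
      rw [Finsupp.add_apply, h, h2, add_zero]
    · exact hx j h
  zero_mem' := by
    intro j hj
    exact absurd rfl hj
  smul_mem' := by
    intro r x hx j hj
    apply hx j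
    intro h
    apply hj
    rw [Finsupp.smul_apply, h, smul_zero]

theorem mem_SP (x : J →₀ ℂ) : x ∈ SP P ↔ SOn P x := Iff.rfl

/-- A linear map which moves every basis vector of a point of `P` into `P` preserves `P`. -/
theorem map_SP {d : (J →₀ ℂ) →ₗ[ℂ] (J →₀ ℂ)}
    (h : ∀ p, P p → SOn P (d (Finsupp.single p 1))) {x : J →₀ ℂ} (hx : x ∈ SP P) :
    d x ∈ SP P := by
  have e : x = ∑ p ∈ x.support, x p • Finsupp.single p (1 : ℂ) := by
    conv_lhs => rw [← Finsupp.sum_single x]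
    apply Finset.sum_congr rfl
    intro p _
    simp
  rw [e, map_sum]
  apply Submodule.sum_mem
  intro p hp
  rw [map_smul]
  apply Submodule.smul_mem
  exact h p (hx p (by simpa using hp))

end sup

section base

variable (K : LCx B G 𝒢)

theorem lab_single {p q : G × K.ι} (h : mbd K.coef (Finsupp.single p 1) q ≠ 0) :
    K.lab q ⊆ K.lab p := by
  classical
  obtain ⟨x, c⟩ := p
  obtain ⟨y, c'⟩ := q
  rw [mbd_single_apply, one_mul] at h
  have h1 := K.label c c' _ h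
  show imT y (K.T c') ⊆ imT x (K.T c)
  have e : imT y (K.T c') = imT x (imT (x⁻¹ * y) (K.T c')) := by
    rw [← imT_mul]
    congr 1
    group
  rw [e]
  exact Set.image_mono h1

theorem deg_single {p q : G × K.ι} (h : mbd K.coef (Finsupp.single p 1) q ≠ 0) :
    K.deg p.2 = K.deg q.2 + 1 := by
  classical
  obtain ⟨x, c⟩ := p
  obtain ⟨y, c'⟩ := q
  rw [mbd_single_apply, one_mul] at h
  apply K.deg_coef
  rintro h0
  apply h
  rw [h0]
  rfl

theorem lab_eq_empty (p : G × K.ι) : K.lab p = ∅ ↔ K.T p.2 = ∅ := by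
  show (fun b => p.1 • b) '' K.T p.2 = ∅ ↔ _
  exact Set.image_eq_empty

theorem dd (x : G × K.ι →₀ ℂ) : mbd K.coef (mbd K.coef x) = 0 := mbd_mbd K.sq x

theorem gpr_self (k : ℕ) {x : G × K.ι →₀ ℂ} (h : ∀ p, x p ≠ 0 → K.deg p.2 = k) :
    gpr K.deg k x = x := by
  ext p
  rw [gpr_apply]
  split_ifs with h1
  · rfl
  · by_contra h2
    exact h1 (h p (Ne.symm h2))

theorem gpr_gpr (k l : ℕ) (x : G × K.ι →₀ ℂ) :
    gpr K.deg k (gpr K.deg l x) = if k = l then gpr K.deg l x else 0 := by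
  ext p
  rw [gpr_apply]
  split_ifs with h1 h2 h2
  · rfl
  · rw [gpr_apply, if_neg]
    · rfl
    · omega
  · rw [gpr_apply, if_neg]
    omega
  · rfl

theorem gpr_SP {P : G × K.ι → Prop} (k : ℕ) {x : G × K.ι →₀ ℂ} (hx : x ∈ SP P) :
    gpr K.deg k x ∈ SP P := by
  intro p hp
  rw [gpr_apply] at hp
  split_ifs at hp with h
  · exact hx p hp
  · exact absurd rfl hp

theorem ext_gpr {x y : G × K.ι →₀ ℂ} (h : ∀ k, gpr K.deg k x = gpr K.deg k y) : x = y := by
  ext p
  have := congrArg (fun w => w p) (h (K.deg p.2))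
  simp only [gpr_apply, if_true] at this
  exact this

theorem augm_gpr (x : G × K.ι →₀ ℂ) : augm K.a (gpr K.deg 0 x) = augm K.a x := by
  induction x using Finsupp.induction_linear with
  | zero => simp
  | add f g hf hg => rw [map_add, map_add, map_add, hf, hg]
  | single p r =>
    obtain ⟨g, c⟩ := p
    by_cases hc : K.deg c = 0
    · rw [gpr_self K 0]
      intro q hq
      have : q = (g, c) := by
        by_contra hn
        exact hq (Finsupp.single_eq_of_ne hn)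
      rw [this]
      exact hc
    · have h0 : K.a c = 0 := by
        by_contra h1
        exact hc (K.a_deg c h1)
      have h1 : gpr K.deg 0 (Finsupp.single (g, c) r) = 0 := by
        ext q
        rw [gpr_apply]
        split_ifs with h2
        · rw [Finsupp.single_eq_of_ne]
          · rfl
          · rintro rfl
            exact hc h2
        · rfl
      rw [h1, map_zero, augm_single, h0, mul_zero]

theorem augm_bd {y : G × K.ι →₀ ℂ} (hy : SOn (fun p => K.lab p = ∅) y) :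
    augm K.a (mbd K.coef y) = 0 := by
  classical
  have e : y = ∑ p ∈ y.support, y p • Finsupp.single p (1 : ℂ) := by
    conv_lhs => rw [← Finsupp.sum_single y]
    apply Finset.sum_congr rfl
    intro p _
    simp
  rw [e, map_sum, map_sum]
  apply Finset.sum_eq_zero
  rintro ⟨g, c⟩ hp
  have h1 : K.T c = ∅ := (lab_eq_empty K (g, c)).mp (hy _ (by simpa using hp))
  rw [map_smul, map_smul]
  have h2 : augm K.a (mbd K.coef (Finsupp.single (g, c) 1)) = 0 := by
    rw [augm_eq, mbd_eq, LinearEquiv.apply_symm_apply, ← K.a_bd c h1]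
    apply Finset.sum_congr rfl
    intro c' _
    rw [vm_apply]
    simp_rw [rowE_single]
    rw [Finset.sum_eq_single c]
    · rw [if_pos rfl, eps_mul, eps_single, one_mul]
    · intro c'' _ h
      rw [if_neg h, zero_mul]
    · simp
  rw [h2, smul_zero]

theorem h1_base : H1 (mbd K.coef) (fun p : G × K.ι => K.deg p.2) (fun p => K.lab p = ∅) 0 := by
  obtain ⟨F0, hF1, hF2⟩ := K.a_one
  have hF1' : F0 ∈ SP (fun p : G × K.ι => K.lab p = ∅) := fun p hp =>
    (lab_eq_empty K p).mpr (hF1 p hp)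
  refine ⟨gpr K.deg 0 F0, gpr_SP K 0 hF1', ?_, mbd_gpr0 K.deg_coef F0, ?_, ?_⟩
  · intro j hj
    rw [gpr_apply] at hj
    split_ifs at hj with h
    · exact h
    · exact absurd rfl hj
  · rintro ⟨y, hy1, hy2⟩
    have h1 := augm_bd K hy1
    rw [hy2, augm_gpr, hF2] at h1
    exact one_ne_zero h1
  · intro x hx hdx
    set r : ℂ := augm K.a x with hr
    obtain ⟨y, hy1, hy2⟩ := K.ex0 (x - r • gpr K.deg 0 F0) (by
        intro p hp
        have h1 : x - r • gpr K.deg 0 F0 ∈ SP (fun p : G × K.ι => K.lab p = ∅) :=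
          Submodule.sub_mem _ hx (Submodule.smul_mem _ _ (gpr_SP K 0 hF1'))
        exact (lab_eq_empty K p).mp (h1 p hp))
      (by rw [map_sub, map_smul, hdx, mbd_gpr0 K.deg_coef F0, smul_zero, sub_zero])
      (by rw [map_sub, map_smul, augm_gpr, hF2, ← hr, smul_eq_mul, mul_one, sub_self])
    refine ⟨r, y, fun p hp => (lab_eq_empty K p).mpr (hy1 p hp), ?_⟩
    rw [hy2]
    abel

end base

section target

variable (K : LCx B G 𝒢) (T₀ : Set B)

/-- The cells below `T₀`. -/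
abbrev PP : G × K.ι → Prop := fun p => K.lab p ⊂ T₀

variable {T₀}

theorem d_SP {x : G × K.ι →₀ ℂ} (hx : x ∈ SP (PP K T₀)) : mbd K.coef x ∈ SP (PP K T₀) := by
  apply map_SP _ hx
  intro p hp q hq
  exact lt_of_le_of_lt (lab_single K hq) hp

/-- Translations. -/
noncomputable abbrev tr (g : G) : (G × K.ι →₀ ℂ) →ₗ[ℂ] (G × K.ι →₀ ℂ) := prep (lact G K.ι) g

theorem tr_SP (h : stS G T₀) {x : G × K.ι →₀ ℂ} (hx : x ∈ SP (PP K T₀)) :
    tr K (h : G) x ∈ SP (PP K T₀) := by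
  rintro ⟨y, c⟩ hp
  rw [prep_lact_apply] at hp
  have h1 : imT ((h : G)⁻¹ * y) (K.T c) ⊂ T₀ := hx _ hp
  have h2 := imT_mono (h : G) h1
  rw [← imT_mul, show imT (h : G) T₀ = T₀ from h.2] at h2
  show imT y (K.T c) ⊂ T₀
  have e : (h : G) * ((h : G)⁻¹ * y) = y := by group
  rwa [e] at h2

/-- The generator of the homology, and a functional detecting it. -/
structure Gen (K : LCx B G 𝒢) (T₀ : Set B) (n : ℕ) where
  /-- the generator -/
  z : G × K.ι →₀ ℂ
  /-- the functional -/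
  e0 : (G × K.ι →₀ ℂ) →ₗ[ℂ] ℂ
  zP : z ∈ SP (PP K T₀)
  zn : ∀ p, z p ≠ 0 → K.deg p.2 = n
  dz : mbd K.coef z = 0
  e0z : e0 z = 1
  e0d : ∀ y ∈ SP (PP K T₀), e0 (mbd K.coef y) = 0
  e0n : ∀ x, e0 (gpr K.deg n x) = e0 x
  gen : ∀ x ∈ SP (PP K T₀), mbd K.coef x = 0 → ∃ y ∈ SP (PP K T₀), x = e0 x • z + mbd K.coef y

theorem exists_gen (hT : T₀.Finite) (hne : T₀.Nonempty)
    (hsub : ∀ S : Set B, S.Nonempty → S ⊂ T₀ → S ∈ 𝒢) :
    Nonempty (Gen K T₀ (T₀.ncard - 1)) := by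
  set n := T₀.ncard - 1 with hn
  obtain ⟨z, h1, h2, h3, h4, h5⟩ := h1_proper (mbd K.coef) (fun p : G × K.ι => K.deg p.2) K.lab
    (fun p q h => lab_single K h) (fun p q h => deg_single K h) (fun x => dd K x) hT hne
    (h1_base K) (fun S hS hST => K.ex S (hsub S hS hST))
  rw [← hn] at h2
  have hz : z ∉ (SP (PP K T₀)).map (mbd K.coef) := by
    rintro ⟨y, hy1, hy2⟩
    exact h4 ⟨y, hy1, hy2⟩
  obtain ⟨f, hf1, hf2⟩ := Submodule.exists_le_ker_of_notMem hz
  set e0 : (G × K.ι →₀ ℂ) →ₗ[ℂ] ℂ := (f z)⁻¹ • (f ∘ₗ gpr K.deg n) with he0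
  have hgz : gpr K.deg n z = z := gpr_self K n h2
  have hfd : ∀ y ∈ SP (PP K T₀), f (mbd K.coef y) = 0 := by
    intro y hy
    exact hf2 ⟨y, hy, rfl⟩
  have e0z : e0 z = 1 := by
    rw [he0, LinearMap.smul_apply, LinearMap.comp_apply, hgz, smul_eq_mul]
    exact inv_mul_cancel₀ hf1
  have e0d : ∀ y ∈ SP (PP K T₀), e0 (mbd K.coef y) = 0 := by
    intro y hy
    rw [he0, LinearMap.smul_apply, LinearMap.comp_apply, ← mbd_gpr K.deg_coef,
      hfd _ (gpr_SP K _ hy), smul_zero]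
  refine ⟨⟨z, e0, h1, h2, h3, e0z, e0d, ?_, ?_⟩⟩
  · intro x
    rw [he0, LinearMap.smul_apply, LinearMap.comp_apply, LinearMap.smul_apply,
      LinearMap.comp_apply, gpr_gpr, if_pos rfl]
  · intro x hx hdx
    obtain ⟨r, y, hy1, hy2⟩ := h5 x hx hdx
    have h6 := congrArg e0 hy2
    rw [map_add, map_smul, e0z, e0d y hy1, add_zero, smul_eq_mul, mul_one] at h6
    exact ⟨y, hy1, by rw [h6]; exact hy2⟩

variable {K} {n : ℕ} (D : Gen K T₀ n)

namespace Gen

/-- Translating a cycle multiplies its class by a factor. -/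
theorem e0_tr (h : stS G T₀) {x : G × K.ι →₀ ℂ} (hx : x ∈ SP (PP K T₀))
    (hdx : mbd K.coef x = 0) : D.e0 (tr K (h : G) x) = D.e0 (tr K (h : G) D.z) * D.e0 x := by
  obtain ⟨y, hy1, hy2⟩ := D.gen x hx hdx
  have h1 : tr K (h : G) x = D.e0 x • tr K (h : G) D.z + mbd K.coef (tr K (h : G) y) := by
    conv_lhs => rw [hy2]
    rw [map_add, map_smul, mbd_eqv]
  rw [h1, map_add, map_smul, D.e0d _ (tr_SP K h hy1), add_zero, smul_eq_mul, mul_comm]

/-- The character. -/
noncomputable def χ : stS G T₀ →* ℂ where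
  toFun h := D.e0 (tr K (h : G) D.z)
  map_one' := by
    show D.e0 (prep (lact G K.ι) ((1 : stS G T₀) : G) D.z) = 1
    rw [Subgroup.coe_one, map_one]
    exact D.e0z
  map_mul' g h := by
    show D.e0 (prep (lact G K.ι) ((g * h : stS G T₀) : G) D.z) = _
    rw [Subgroup.coe_mul, map_mul, Module.End.mul_apply]
    exact D.e0_tr g (tr_SP K h D.zP) (by
      show mbd K.coef (prep (lact G K.ι) (h : G) D.z) = 0
      rw [mbd_eqv, D.dz, map_zero])

theorem χ_ne (h : stS G T₀) : D.χ h ≠ 0 := by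
  intro h0
  have h1 : D.χ (h * h⁻¹) = 1 := by rw [mul_inv_cancel, map_one]
  rw [map_mul, h0, zero_mul] at h1
  exact zero_ne_one h1

theorem e0_tr' (h : stS G T₀) {x : G × K.ι →₀ ℂ} (hx : x ∈ SP (PP K T₀))
    (hdx : mbd K.coef (gpr K.deg n x) = 0) : D.e0 (tr K (h : G) x) = D.χ h * D.e0 x := by
  rw [← D.e0n, ← D.e0n x]
  show D.e0 (gpr K.deg n (prep (lact G K.ι) (h : G) x)) = _
  rw [gpr_eqv]
  exact D.e0_tr h (gpr_SP K n hx) hdx

end Gen

variable (K T₀ n)

/-- The underlying space of the target. -/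
def VV : Submodule ℂ (G × K.ι →₀ ℂ) where
  carrier := {x | x ∈ SP (PP K T₀) ∧ (∀ k, k < n → gpr K.deg k x = 0) ∧
    mbd K.coef (gpr K.deg n x) = 0}
  add_mem' := by
    rintro x y ⟨h1, h2, h3⟩ ⟨k1, k2, k3⟩
    refine ⟨Submodule.add_mem _ h1 k1, ?_, ?_⟩
    · intro k hk
      rw [map_add, h2 k hk, k2 k hk, add_zero]
    · rw [map_add, map_add, h3, k3, add_zero]
  zero_mem' := ⟨Submodule.zero_mem _, fun k _ => map_zero _, by rw [map_zero, map_zero]⟩
  smul_mem' := by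
    rintro r x ⟨h1, h2, h3⟩
    refine ⟨Submodule.smul_mem _ r h1, ?_, ?_⟩
    · intro k hk
      rw [map_smul, h2 k hk, smul_zero]
    · rw [map_smul, map_smul, h3, smul_zero]

variable {K T₀ n}

theorem d_VV {x : G × K.ι →₀ ℂ} (hx : x ∈ VV K T₀ n) : mbd K.coef x ∈ VV K T₀ n := by
  obtain ⟨h1, h2, h3⟩ := hx
  refine ⟨d_SP K h1, ?_, ?_⟩
  · intro k hk
    rw [← mbd_gpr K.deg_coef]
    rcases Nat.lt_or_ge (k + 1) n with h | h
    · rw [h2 _ h, map_zero]
    · obtain rfl : k + 1 = n := by omega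
      exact h3
  · rw [← mbd_gpr K.deg_coef, dd]

theorem gpr_VV (k : ℕ) {x : G × K.ι →₀ ℂ} (hx : x ∈ VV K T₀ n) :
    gpr K.deg (k + n) x ∈ VV K T₀ n := by
  obtain ⟨h1, h2, h3⟩ := hx
  refine ⟨gpr_SP K _ h1, ?_, ?_⟩
  · intro l hl
    rw [gpr_gpr, if_neg (by omega)]
  · rw [gpr_gpr]
    split_ifs with h
    · rw [← h]
      exact h3
    · rw [map_zero]

theorem tr_VV (h : stS G T₀) {x : G × K.ι →₀ ℂ} (hx : x ∈ VV K T₀ n) :
    tr K (h : G) x ∈ VV K T₀ n := by
  obtain ⟨h1, h2, h3⟩ := hx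
  refine ⟨tr_SP K h h1, ?_, ?_⟩
  · intro k hk
    show gpr K.deg k (prep (lact G K.ι) (h : G) x) = 0
    rw [gpr_eqv, h2 k hk, map_zero]
  · show mbd K.coef (gpr K.deg n (prep (lact G K.ι) (h : G) x)) = 0
    rw [gpr_eqv, mbd_eqv, h3, map_zero]

/-- The twisted action. -/
noncomputable def Gen.ρV : Representation ℂ (stS G T₀) (VV K T₀ n) where
  toFun h := (D.χ h)⁻¹ • (tr K (h : G)).restrict (fun _ hx => tr_VV h hx)
  map_one' := by
    apply LinearMap.ext
    intro x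
    apply Subtype.ext
    show (D.χ 1)⁻¹ • prep (lact G K.ι) ((1 : stS G T₀) : G) (x : G × K.ι →₀ ℂ) = x
    rw [map_one, inv_one, one_smul, Subgroup.coe_one, map_one]
    rfl
  map_mul' g h := by
    apply LinearMap.ext
    intro x
    apply Subtype.ext
    show (D.χ (g * h))⁻¹ • prep (lact G K.ι) ((g * h : stS G T₀) : G) (x : G × K.ι →₀ ℂ) =
      (D.χ g)⁻¹ • prep (lact G K.ι) (g : G)
        ((D.χ h)⁻¹ • prep (lact G K.ι) (h : G) (x : G × K.ι →₀ ℂ))
    rw [map_mul, mul_inv, Subgroup.coe_mul, map_mul, Module.End.mul_apply, map_smul, smul_smul]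

theorem Gen.ρV_coe (h : stS G T₀) (x : VV K T₀ n) : ((D.ρV h x : VV K T₀ n) : G × K.ι →₀ ℂ) =
    (D.χ h)⁻¹ • prep (lact G K.ι) (h : G) (x : G × K.ι →₀ ℂ) := rfl

/-- The target complex. -/
noncomputable def Gen.V : Cx (stS G T₀) where
  V := VV K T₀ n
  ρ := D.ρV
  d := (mbd K.coef).restrict (fun _ hx => d_VV hx)
  e := fun k => (gpr K.deg (k + n)).restrict (fun _ hx => gpr_VV k hx)
  ε := D.e0 ∘ₗ (VV K T₀ n).subtype
  bd := Finset.univ.sup K.deg
  e_idem := by
    intro k v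
    apply Subtype.ext
    show gpr K.deg (k + n) (gpr K.deg (k + n) (v : G × K.ι →₀ ℂ)) = gpr K.deg (k + n) v
    rw [gpr_gpr, if_pos rfl]
  e_orth := by
    intro k l v hkl
    apply Subtype.ext
    show gpr K.deg (k + n) (gpr K.deg (l + n) (v : G × K.ι →₀ ℂ)) = 0
    rw [gpr_gpr, if_neg (by omega)]
  e_sum := by
    intro v
    apply Subtype.ext
    ext p
    rw [Submodule.coe_sum, Finsupp.finsetSum_apply]
    have h0 : ∀ k, (((gpr K.deg (k + n)).restrict (fun _ hx => gpr_VV k hx) v : VV K T₀ n) :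
        G × K.ι →₀ ℂ) p = if k = K.deg p.2 - n ∧ n ≤ K.deg p.2 then
          (v : G × K.ι →₀ ℂ) p else 0 := by
      intro k
      show gpr K.deg (k + n) (v : G × K.ι →₀ ℂ) p = _
      rw [gpr_apply]
      by_cases h : K.deg p.2 = k + n
      · rw [if_pos h, if_pos (by omega)]
      · rw [if_neg h, if_neg (by omega)]
    rw [Finset.sum_congr rfl (fun k _ => h0 k)]
    by_cases hn : n ≤ K.deg p.2
    · rw [Finset.sum_eq_single (K.deg p.2 - n)]
      · rw [if_pos ⟨rfl, hn⟩]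
      · intro k _ hk
        rw [if_neg (fun h => hk h.1)]
      · intro h
        exfalso
        apply h
        rw [Finset.mem_range]
        have : K.deg p.2 ≤ Finset.univ.sup K.deg := Finset.le_sup (Finset.mem_univ p.2)
        omega
    · rw [Finset.sum_eq_zero]
      · have h1 := congrArg (fun w => w p) (v.2.2.1 (K.deg p.2) (by omega))
        simp only [gpr_apply, if_true] at h1
        exact h1.symm
      · intro k _
        rw [if_neg (fun h => hn h.2)]
  d_e := by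
    intro k v
    apply Subtype.ext
    show mbd K.coef (gpr K.deg (k + 1 + n) (v : G × K.ι →₀ ℂ)) =
      gpr K.deg (k + n) (mbd K.coef (v : G × K.ι →₀ ℂ))
    rw [show k + 1 + n = k + n + 1 by omega]
    exact mbd_gpr K.deg_coef (k + n) (v : G × K.ι →₀ ℂ)
  d_e0 := by
    intro v
    apply Subtype.ext
    show mbd K.coef (gpr K.deg (0 + n) (v : G × K.ι →₀ ℂ)) = 0
    rw [zero_add]
    exact v.2.2.2
  d_d := by
    intro v
    apply Subtype.ext
    exact dd K (v : G × K.ι →₀ ℂ)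
  ε_d := by
    intro v
    exact D.e0d (v : G × K.ι →₀ ℂ) v.2.1
  ε_e := by
    intro k v hk
    show D.e0 (gpr K.deg (k + n) (v : G × K.ι →₀ ℂ)) = 0
    rw [← D.e0n, gpr_gpr, if_neg (by omega), map_zero]
  ρ_d := by
    intro γ v
    apply Subtype.ext
    show mbd K.coef ((D.χ γ)⁻¹ • prep (lact G K.ι) (γ : G) (v : G × K.ι →₀ ℂ)) =
      (D.χ γ)⁻¹ • prep (lact G K.ι) (γ : G) (mbd K.coef (v : G × K.ι →₀ ℂ))
    rw [map_smul, mbd_eqv]
  ρ_e := by
    intro k γ v
    apply Subtype.ext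
    show gpr K.deg (k + n) ((D.χ γ)⁻¹ • prep (lact G K.ι) (γ : G) (v : G × K.ι →₀ ℂ)) =
      (D.χ γ)⁻¹ • prep (lact G K.ι) (γ : G) (gpr K.deg (k + n) (v : G × K.ι →₀ ℂ))
    rw [map_smul, gpr_eqv]
  ρ_ε := by
    intro γ v
    show D.e0 ((D.χ γ)⁻¹ • tr K (γ : G) (v : G × K.ι →₀ ℂ)) = D.e0 (v : G × K.ι →₀ ℂ)
    rw [map_smul, D.e0_tr' γ v.2.1 v.2.2.2, smul_eq_mul, ← mul_assoc,
      inv_mul_cancel₀ (D.χ_ne γ), one_mul]

theorem Gen.V_exact : D.V.Exact := by
  refine ⟨?_, ?_⟩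
  · rintro ⟨v, hv⟩ h1 h2
    have h1' : mbd K.coef v = 0 := congrArg Subtype.val h1
    have h2' : D.e0 v = 0 := h2
    obtain ⟨y, hy1, hy2⟩ := D.gen v hv.1 h1'
    rw [h2', zero_smul, zero_add] at hy2
    -- the part of `y` in degrees above `n`
    set w : G × K.ι →₀ ℂ := y.filter (fun p => n < K.deg p.2) with hw
    have hwk : ∀ k, gpr K.deg k w = if n < k then gpr K.deg k y else 0 := by
      intro k
      ext p
      rw [gpr_apply, hw, Finsupp.filter_apply]
      split_ifs with h3 h4 h4 h4 h4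
      · rw [gpr_apply, if_pos h3]
      · omega
      · omega
      · rfl
      · rw [gpr_apply, if_neg h3]
      · rfl
    have hwP : w ∈ SP (PP K T₀) := by
      intro p hp
      rw [hw, Finsupp.filter_apply] at hp
      split_ifs at hp with h
      · exact hy1 p hp
      · exact absurd rfl hp
    have hdw : mbd K.coef w = v := by
      apply ext_gpr K
      intro k
      rw [← mbd_gpr K.deg_coef, hwk]
      split_ifs with h
      · rw [mbd_gpr K.deg_coef, ← hy2]
      · rw [map_zero, hv.2.1 k (by omega)]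
    have hmem : w ∈ VV K T₀ n := by
      refine ⟨hwP, ?_, ?_⟩
      · intro k hk
        rw [hwk, if_neg (by omega)]
      · rw [hwk, if_neg (by omega), map_zero]
    refine ⟨⟨w, hmem⟩, ?_⟩
    apply Subtype.ext
    exact hdw
  · have hmem : D.z ∈ VV K T₀ n := by
      refine ⟨D.zP, ?_, ?_⟩
      · intro k hk
        rw [← gpr_self K n D.zn, gpr_gpr, if_neg (by omega)]
      · rw [gpr_self K n D.zn, D.dz]
    exact ⟨⟨D.z, hmem⟩, D.e0z⟩

end target

end Tgt

open Tgt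

theorem exists_att (K : LCx B G 𝒢) (T₀ : Set B) (hT : T₀.Finite) (hne : T₀.Nonempty)
    (hsub : ∀ S : Set B, S.Nonempty → S ⊂ T₀ → S ∈ 𝒢) (F : FreeRes (stS G T₀)) :
    Nonempty (Att K T₀ F) := by
  obtain ⟨D⟩ := exists_gen K hT hne hsub
  set n := T₀.ncard - 1 with hn
  obtain ⟨f, f1, f2, f3, f4⟩ := Cx.exists_chain_map (C := F.toCx (MonoidHom.id (stS G T₀)))
    (D := D.V.neg) (F.toCx_proj _ Function.injective_id) (Cx.neg_exact D.V_exact)
  let f' : (stS G T₀ × F.cell →₀ ℂ) →ₗ[ℂ] VV K T₀ n := f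
  let Ψ : (stS G T₀ × F.cell →₀ ℂ) →ₗ[ℂ] (G × K.ι →₀ ℂ) := (VV K T₀ n).subtype ∘ₗ f'
  have hΨ : ∀ u, Ψ u = (f' u : G × K.ι →₀ ℂ) := fun u => rfl
  have hsupp : ∀ u, Ψ u ∈ SP (PP K T₀) := fun u => (f' u).2.1
  have heqv : ∀ (h : stS G T₀) u, prep (lact G K.ι) (h : G) (Ψ u) =
      D.χ h • Ψ (prep (lact (stS G T₀) F.cell) h u) := by
    intro h u
    have h1 : f' (prep (lact (stS G T₀) F.cell) h u) = D.ρV h (f' u) := f1 h u
    rw [hΨ, hΨ, h1, D.ρV_coe, smul_smul, mul_inv_cancel₀ (D.χ_ne h), one_smul]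
  have hhd : ∀ u, mbd K.coef (Ψ u) = -Ψ (mbd F.bdC u) := by
    intro u
    have h1 : -mbd K.coef (Ψ u) = Ψ (mbd F.bdC u) := congrArg Subtype.val (f2 u)
    rw [← h1, neg_neg]
  have hε : ∀ u, D.e0 (Ψ u) = augm (fun c => (F.aug c : ℂ)) u := f3
  have hgr : ∀ k u, Ψ (gpr F.dim k u) = gpr K.deg (k + n) (Ψ u) := by
    intro k u
    exact congrArg Subtype.val (f4 k u)
  refine ⟨⟨D.χ, Ψ, hsupp, heqv, hhd, hgr, ?_⟩⟩
  intro a u ha h1 h2
  have h3 : augm (fun c => (F.aug c : ℂ)) u = 0 := by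
    rw [← hε]
    have h4 : D.e0 (mbd K.coef a + Ψ u) = 0 := by rw [h1, map_zero]
    rw [map_add, D.e0d a ha, zero_add] at h4
    exact h4
  obtain ⟨u1, hu1'⟩ : ∃ u1 : stS G T₀ × F.cell →₀ ℂ, mbd F.bdC u1 = u :=
    (F.toCx_exact (MonoidHom.id (stS G T₀))).1 u h2 h3
  have h5 : mbd K.coef (a - Ψ u1) = 0 := by
    rw [map_sub, hhd, hu1', sub_neg_eq_add, h1]
  obtain ⟨y, hy1, hy2⟩ := D.gen (a - Ψ u1) (Submodule.sub_mem _ ha (hsupp u1)) h5
  set r : ℂ := D.e0 (a - Ψ u1) with hr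
  obtain ⟨v0, hv0'⟩ : ∃ v0 : stS G T₀ × F.cell →₀ ℂ, augm (fun c => (F.aug c : ℂ)) v0 = 1 :=
    (F.toCx_exact (MonoidHom.id (stS G T₀))).2
  -- the part of degree zero
  have hv1 : augm (fun c => (F.aug c : ℂ)) (gpr F.dim 0 v0) = 1 := by
    rw [← hv0', augm_eq, augm_eq]
    apply Finset.sum_congr rfl
    intro c _
    by_cases hc : F.aug c = 0
    · rw [hc]
      simp
    · congr 2
      apply MonoidAlgebra.coeff_injective
      ext g
      rw [rowE_coeff, rowE_coeff, gpr_apply, if_pos (F.aug_dim c hc)]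
  have hv2 : mbd F.bdC (gpr F.dim 0 v0) = 0 := mbd_gpr0 (fun c c' h => F.bdC_dim c c' h) v0
  set v : stS G T₀ × F.cell →₀ ℂ := r • gpr F.dim 0 v0 with hv
  have hvd : mbd F.bdC v = 0 := by rw [hv, map_smul, hv2, smul_zero]
  have hve : D.e0 (Ψ v) = r := by
    rw [hε, hv, map_smul, hv1, smul_eq_mul, mul_one]
  obtain ⟨y', hy1', hy2'⟩ := D.gen (Ψ v) (hsupp v) (by rw [hhd, hvd, map_zero, neg_zero])
  rw [hve] at hy2'
  refine ⟨y - y', u1 + v, Submodule.sub_mem _ hy1 hy1', ?_, ?_⟩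
  · rw [map_sub, map_add, hy2']
    have h6 : a = Ψ u1 + (r • D.z + mbd K.coef y) := by
      rw [← hy2]
      abel
    conv_rhs => rw [h6]
    abel
  · rw [map_add, hvd, add_zero, hu1']

end Pool.Agent.Lib.P9f173dR
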